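import Pool.Agent.Lib.MP_480559_an.Defs

/-!
The derivative `D` on the torus is the derivative of any differentiable lift; chain rule.
-/

open MeasureTheory Filter Topology

noncomputable section

namespace Pool.Agent.Lib.MP_480559_an

lemma proj_add (x y : Plane) : proj (x + y) = proj x + proj y := by
  simp [proj]

lemma proj_sub (x y : Plane) : proj (x - y) = proj x - proj y := by
  simp [proj]

lemma proj_rep (p : Torus) : proj (rep p) = p := by
  simp [proj, rep]

lemma proj_surjective : Function.Surjective proj := fun p => ⟨rep p, proj_rep p⟩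

lemma rep_proj {x : Plane} (h : ‖x‖ < 1 / 2) : rep (proj x) = x := by
  have h0 : |x 0| < 1 / 2 := lt_of_le_of_lt (by simpa using PiLp.norm_apply_le x 0) h
  have h1 : |x 1| < 1 / 2 := lt_of_le_of_lt (by simpa using PiLp.norm_apply_le x 1) h
  rw [abs_lt] at h0 h1
  have e0 : ((AddCircle.equivIco (1 : ℝ) (-1 / 2) ((x 0 : ℝ) : UnitAddCircle) : ℝ)) = x 0 :=
    AddCircle.equivIco_coe_of_mem ⟨by linarith [h0.1], by linarith [h0.2]⟩
  have e1 : ((AddCircle.equivIco (1 : ℝ) (-1 / 2) ((x 1 : ℝ) : UnitAddCircle) : ℝ)) = x 1 :=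
    AddCircle.equivIco_coe_of_mem ⟨by linarith [h1.1], by linarith [h1.2]⟩
  ext i
  fin_cases i
  · simpa [rep, proj] using e0
  · simpa [rep, proj] using e1

lemma D_eq {f : Torus → Torus} {F : Plane → Plane} (hF : ∀ x, f (proj x) = proj (F x))
    {x : Plane} {A : Plane →L[ℝ] Plane} (hA : HasFDerivAt F A x) : D f (proj x) = A := by
  have h1 : HasFDerivAt (fun v : Plane => F (x + v) - F x) A 0 := by
    have h2 : HasFDerivAt F A (x + 0) := by simpa using hA
    have h3 := (hasFDerivAt_comp_add_left x).2 h2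
    exact h3.sub_const (F x)
  have h4 : (fun v : Plane => rep (f (proj x + proj v) - f (proj x))) =ᶠ[𝓝 0]
      (fun v : Plane => F (x + v) - F x) := by
    have hc : Tendsto (fun v : Plane => F (x + v) - F x) (𝓝 0) (𝓝 0) := by
      have := h1.continuousAt.tendsto
      simpa using this
    have h5 : ∀ᶠ v in 𝓝 (0 : Plane), ‖F (x + v) - F x‖ < 1 / 2 := by
      have := hc.norm
      simp only [norm_zero] at this
      exact this.eventually (gt_mem_nhds (by norm_num))
    filter_upwards [h5] with v hv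
    rw [← proj_add, hF, hF, ← proj_sub, rep_proj hv]
  unfold D
  rw [h4.fderiv_eq, h1.fderiv]

/-- Having a differentiable lift. -/
def DiffLift (f : Torus → Torus) : Prop :=
  ∃ F : Plane → Plane, Differentiable ℝ F ∧ ∀ x : Plane, f (proj x) = proj (F x)

lemma IsCr.diffLift {r : WithTop ℕ∞} (hr : 1 ≤ r) {f : Torus → Torus} (h : IsCr r f) :
    DiffLift f := by
  obtain ⟨F, hF, hl⟩ := h
  exact ⟨F, (hF.of_le hr).differentiable one_ne_zero, hl⟩

lemma diffLift_id : DiffLift id := ⟨id, differentiable_id, fun _ => rfl⟩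

lemma DiffLift.comp {f g : Torus → Torus} (hf : DiffLift f) (hg : DiffLift g) :
    DiffLift (f ∘ g) := by
  obtain ⟨F, hF, hl⟩ := hf
  obtain ⟨G, hG, hl'⟩ := hg
  exact ⟨F ∘ G, hF.comp hG, fun x => by simp [hl, hl']⟩

lemma DiffLift.iterate {f : Torus → Torus} (hf : DiffLift f) (n : ℕ) : DiffLift f^[n] := by
  induction n with
  | zero => exact diffLift_id
  | succ n ih => rw [Function.iterate_succ']; exact hf.comp ih

lemma D_id (p : Torus) : D id p = ContinuousLinearMap.id ℝ Plane := by
  obtain ⟨x, rfl⟩ := proj_surjective p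
  exact D_eq (F := id) (fun _ => rfl) (hasFDerivAt_id x)

lemma D_comp {f g : Torus → Torus} (hf : DiffLift f) (hg : DiffLift g) (p : Torus) :
    D (f ∘ g) p = (D f (g p)).comp (D g p) := by
  obtain ⟨F, hF, hl⟩ := hf
  obtain ⟨G, hG, hl'⟩ := hg
  obtain ⟨x, rfl⟩ := proj_surjective p
  rw [hl', D_eq hl (hF (G x)).hasFDerivAt, D_eq hl' (hG x).hasFDerivAt]
  exact D_eq (F := F ∘ G) (fun x => by simp [hl, hl'])
    ((hF (G x)).hasFDerivAt.comp x (hG x).hasFDerivAt)

lemma D_iterate_succ {f : Torus → Torus} (hf : DiffLift f) (n : ℕ) (p : Torus) :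
    D f^[n + 1] p = (D f (f^[n] p)).comp (D f^[n] p) := by
  rw [Function.iterate_succ']
  exact D_comp hf (hf.iterate n) p

end Pool.Agent.Lib.MP_480559_an
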