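import Pool.Agent.Lib.MP_480559_an.Calculus

/-!
Invariant line fields for torus maps whose derivative is a product of two positive shears.
-/

open MeasureTheory Filter Topology

noncomputable section

namespace Pool.Agent.Lib.MP_480559_an

/-- The slope map. -/
def slopeMap (u w s : ℝ) : ℝ := (u + s) / (1 + w * (u + s))

lemma slopeMap_lip {u w s s' : ℝ} (hu : 1 ≤ u) (hw : 1 ≤ w) (hs : 0 ≤ s) (hs' : 0 ≤ s') :
    |slopeMap u w s - slopeMap u w s'| ≤ 1 / 2 * |s - s'| := by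
  have h1 : 2 ≤ 1 + w * (u + s) := by nlinarith
  have h2 : 2 ≤ 1 + w * (u + s') := by nlinarith
  have h3 : slopeMap u w s - slopeMap u w s' =
      (s - s') / ((1 + w * (u + s)) * (1 + w * (u + s'))) := by
    unfold slopeMap
    field_simp
    ring
  have h4 : 2 ≤ (1 + w * (u + s)) * (1 + w * (u + s')) := by nlinarith
  rw [h3, abs_div, abs_of_pos (by linarith : 0 < (1 + w * (u + s)) * (1 + w * (u + s'))),
    div_le_iff₀ (by linarith)]
  nlinarith [abs_nonneg (s - s')]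

lemma slopeMap_nonneg {u w s : ℝ} (hu : 1 ≤ u) (hw : 1 ≤ w) (hs : 0 ≤ s) :
    0 ≤ slopeMap u w s := by
  unfold slopeMap
  have h1 : 2 ≤ 1 + w * (u + s) := by nlinarith
  positivity

lemma slopeMap_le_one {u w s : ℝ} (hu : 1 ≤ u) (hw : 1 ≤ w) (hs : 0 ≤ s) :
    slopeMap u w s ≤ 1 := by
  unfold slopeMap
  have h1 : 2 ≤ 1 + w * (u + s) := by nlinarith
  rw [div_le_one (by linarith)]
  nlinarith

lemma exists_slope {X : Type} [TopologicalSpace X] [CompactSpace X] (k : X → X)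
    (hk : Continuous k) (u w : X → ℝ) (hu : Continuous u) (hw : Continuous w)
    (hu1 : ∀ p, 1 ≤ u p) (hw1 : ∀ p, 1 ≤ w p) :
    ∃ s : X → ℝ, Continuous s ∧ (∀ p, 0 ≤ s p) ∧ (∀ p, s p ≤ 1) ∧
      ∀ p, s p = slopeMap (u p) (w p) (s (k p)) := by
  have hcont : ∀ s : C(X, ℝ), Continuous fun p => slopeMap (u p) (w p) (max (s (k p)) 0) := by
    intro s
    have hm : Continuous fun p => max (s (k p)) 0 :=
      (s.continuous.comp hk).max continuous_const
    unfold slopeMap
    refine (hu.add hm).div (continuous_const.add (hw.mul (hu.add hm))) fun p => ?_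
    have h0 : 0 ≤ max (s (k p)) 0 := le_max_right _ _
    have := hu1 p
    have := hw1 p
    have h1 : 2 ≤ 1 + w p * (u p + max (s (k p)) 0) := by nlinarith
    linarith
  let T : C(X, ℝ) → C(X, ℝ) := fun s => ⟨_, hcont s⟩
  have hT : ContractingWith (1 / 2 : NNReal) T := by
    refine ⟨by norm_num, LipschitzWith.of_dist_le_mul fun s s' => ?_⟩
    rw [ContinuousMap.dist_le (by positivity)]
    intro p
    rw [Real.dist_eq]
    refine le_trans (slopeMap_lip (hu1 p) (hw1 p) (le_max_right _ _) (le_max_right _ _)) ?_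
    have h1 : |max (s (k p)) 0 - max (s' (k p)) 0| ≤ |s (k p) - s' (k p)| :=
      abs_max_sub_max_le_abs _ _ _
    have h2 : |s (k p) - s' (k p)| ≤ dist s s' := by
      rw [← Real.dist_eq]; exact ContinuousMap.dist_apply_le_dist _
    have h3 : ((1 / 2 : NNReal) : ℝ) = 1 / 2 := by norm_num
    rw [h3]
    linarith
  let s := ContractingWith.fixedPoint T hT
  have hs : ∀ p, s p = slopeMap (u p) (w p) (max (s (k p)) 0) := by
    intro p
    have := congrArg (fun t : C(X, ℝ) => t p) (ContractingWith.fixedPoint_isFixedPt hT).eq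
    exact this.symm
  have h0 : ∀ p, 0 ≤ s p := fun p => by
    rw [hs p]; exact slopeMap_nonneg (hu1 p) (hw1 p) (le_max_right _ _)
  refine ⟨s, s.continuous, h0, fun p => ?_, fun p => ?_⟩
  · rw [hs p]; exact slopeMap_le_one (hu1 p) (hw1 p) (le_max_right _ _)
  · rw [hs p, max_eq_left (h0 (k p))]

/-- Coordinate functionals. -/
def P (i : Fin 2) : Plane →L[ℝ] ℝ := EuclideanSpace.proj i

@[simp] lemma P_apply (i : Fin 2) (v : Plane) : P i v = v i := rfl

/-- The linear map with matrix `[[1 + w u, w], [u, 1]]`. -/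
def shearCLM (u w : ℝ) : Plane →L[ℝ] Plane :=
  (P 0 + w • (P 1 + u • P 0)).smulRight (!₂[1, 0] : Plane) +
    (P 1 + u • P 0).smulRight (!₂[0, 1] : Plane)

lemma shearCLM_apply (u w : ℝ) (v : Plane) :
    shearCLM u w v = !₂[v 0 + w * (v 1 + u * v 0), v 1 + u * v 0] := by
  ext i
  fin_cases i
  · simp [shearCLM]; ring
  · simp [shearCLM]

/-- Unstable frame. -/
def eU (s : ℝ) : Plane := !₂[1, s]

/-- Stable frame. -/
def eS (r : ℝ) : Plane := !₂[-r, 1]

lemma shear_eU {u w s : ℝ} (hu : 1 ≤ u) (hw : 1 ≤ w) (hs : 0 ≤ s) :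
    shearCLM u w (eU s) = (1 + w * (u + s)) • eU (slopeMap u w s) := by
  have h1 : 2 ≤ 1 + w * (u + s) := by nlinarith
  have h2 : 1 + w * (u + s) ≠ 0 := by linarith
  rw [shearCLM_apply]
  ext i
  fin_cases i
  · simp [eU, add_comm]
  · simp [eU, slopeMap]; field_simp; ring

lemma shear_eS {u w r : ℝ} (hu : 1 ≤ u) (hw : 1 ≤ w) (hr : 0 ≤ r) :
    shearCLM u w (eS (slopeMap w u r)) = (1 + u * (w + r))⁻¹ • eS r := by
  have h1 : 2 ≤ 1 + u * (w + r) := by nlinarith
  have h2 : 1 + u * (w + r) ≠ 0 := by linarith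
  rw [shearCLM_apply]
  ext i
  fin_cases i
  · simp [eS, slopeMap]; field_simp; ring
  · simp [eS, slopeMap]; field_simp; ring

lemma norm_eU_sq (s : ℝ) : ‖eU s‖ ^ 2 = 1 + s ^ 2 := by
  rw [EuclideanSpace.norm_sq_eq]
  simp [eU]

lemma norm_eS_sq (r : ℝ) : ‖eS r‖ ^ 2 = 1 + r ^ 2 := by
  rw [EuclideanSpace.norm_sq_eq]
  simp [eS, add_comm]

lemma one_le_norm_eU (s : ℝ) : 1 ≤ ‖eU s‖ := by
  have := norm_eU_sq s
  nlinarith [norm_nonneg (eU s), sq_nonneg s]

lemma one_le_norm_eS (s : ℝ) : 1 ≤ ‖eS s‖ := by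
  have := norm_eS_sq s
  nlinarith [norm_nonneg (eS s), sq_nonneg s]

lemma norm_eU_le {s : ℝ} (h0 : 0 ≤ s) (h1 : s ≤ 1) : ‖eU s‖ ≤ 2 := by
  have := norm_eU_sq s
  nlinarith [norm_nonneg (eU s)]

lemma norm_eS_le {s : ℝ} (h0 : 0 ≤ s) (h1 : s ≤ 1) : ‖eS s‖ ≤ 2 := by
  have := norm_eS_sq s
  nlinarith [norm_nonneg (eS s)]

lemma eU_ne_zero (s : ℝ) : eU s ≠ 0 := by
  intro h
  have := one_le_norm_eU s
  rw [h, norm_zero] at this
  linarith

lemma eS_ne_zero (s : ℝ) : eS s ≠ 0 := by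
  intro h
  have := one_le_norm_eS s
  rw [h, norm_zero] at this
  linarith

lemma continuous_eU : Continuous eU := by
  unfold eU
  fun_prop

lemma continuous_eS : Continuous eS := by
  unfold eS
  fun_prop

lemma isCompl_frames {r s : ℝ} (hr : 0 ≤ r) (hs : 0 ≤ s) :
    IsCompl (Submodule.span ℝ {eS r}) (Submodule.span ℝ {eU s}) := by
  have hd : 1 + r * s ≠ 0 := by positivity
  constructor
  · rw [Submodule.disjoint_def]
    intro x hx hy
    obtain ⟨a, rfl⟩ := Submodule.mem_span_singleton.1 hx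
    obtain ⟨b, hb⟩ := Submodule.mem_span_singleton.1 hy
    have h0 := congrArg (fun v : Plane => v 0) hb
    have h1 := congrArg (fun v : Plane => v 1) hb
    simp [eU, eS] at h0 h1
    have h2 : a * (1 + r * s) = 0 := by
      have : a = -(a * r) * s := by rw [← h0]; exact h1.symm
      linarith
    have h3 : a = 0 := (mul_eq_zero.1 h2).resolve_right hd
    rw [h3, zero_smul]
  · rw [codisjoint_iff, eq_top_iff]
    intro v _
    refine Submodule.mem_sup.2 ⟨((v 1 - s * v 0) / (1 + r * s)) • eS r,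
      Submodule.smul_mem _ _ (Submodule.mem_span_singleton_self _),
      ((v 0 + r * v 1) / (1 + r * s)) • eU s,
      Submodule.smul_mem _ _ (Submodule.mem_span_singleton_self _), ?_⟩
    ext i
    fin_cases i
    · simp [eU, eS]; field_simp; ring
    · simp [eU, eS]; field_simp; ring

/-- The line field spanned by `(1, s p)`. -/
def lineU (s : Torus → ℝ) (p : Torus) : Submodule ℝ Plane := Submodule.span ℝ {eU (s p)}

/-- The line field spanned by `(-r p, 1)`. -/
def lineS (r : Torus → ℝ) (p : Torus) : Submodule ℝ Plane := Submodule.span ℝ {eS (r p)}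

theorem isAnosovSplitting_of_slopes {f : Torus → Torus} (hf : DiffLift f) {u w s r : Torus → ℝ}
    (hD : ∀ p, D f p = shearCLM (u p) (w p)) (hu1 : ∀ p, 1 ≤ u p) (hw1 : ∀ p, 1 ≤ w p)
    (hs : Continuous s) (hs0 : ∀ p, 0 ≤ s p) (hs1 : ∀ p, s p ≤ 1)
    (hsf : ∀ p, s (f p) = slopeMap (u p) (w p) (s p))
    (hr : Continuous r) (hr0 : ∀ p, 0 ≤ r p) (hr1 : ∀ p, r p ≤ 1)
    (hrf : ∀ p, r p = slopeMap (w p) (u p) (r (f p))) :
    IsAnosovSplitting f (lineS r) (lineU s) := by
  have hU : ∀ p, D f p (eU (s p)) = (1 + w p * (u p + s p)) • eU (s (f p)) := by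
    intro p
    rw [hD, hsf, shear_eU (hu1 p) (hw1 p) (hs0 p)]
  have hS : ∀ p, D f p (eS (r p)) = (1 + u p * (w p + r (f p)))⁻¹ • eS (r (f p)) := by
    intro p
    rw [hD, hrf p, shear_eS (hu1 p) (hw1 p) (hr0 _)]
  have ha : ∀ p, 2 ≤ 1 + w p * (u p + s p) := fun p => by
    nlinarith [hu1 p, hw1 p, hs0 p]
  have hb : ∀ p, 2 ≤ 1 + u p * (w p + r (f p)) := fun p => by
    nlinarith [hu1 p, hw1 p, hr0 (f p)]
  have hUn : ∀ p n, ∃ c : ℝ, 2 ^ n ≤ c ∧ D f^[n] p (eU (s p)) = c • eU (s (f^[n] p)) := by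
    intro p n
    induction n with
    | zero => exact ⟨1, by simp, by simp [D_id]⟩
    | succ n ih =>
      obtain ⟨c, hc, hc'⟩ := ih
      refine ⟨c * (1 + w (f^[n] p) * (u (f^[n] p) + s (f^[n] p))), ?_, ?_⟩
      · rw [pow_succ]
        have h2 : (0 : ℝ) < 2 ^ n := by positivity
        nlinarith [ha (f^[n] p)]
      · rw [D_iterate_succ hf, ContinuousLinearMap.comp_apply, hc', map_smul, hU, smul_smul,
          Function.iterate_succ_apply']
  have hSn : ∀ p n, ∃ c : ℝ, 0 ≤ c ∧ c ≤ (1 / 2) ^ n ∧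
      D f^[n] p (eS (r p)) = c • eS (r (f^[n] p)) := by
    intro p n
    induction n with
    | zero => exact ⟨1, by simp, by simp, by simp [D_id]⟩
    | succ n ih =>
      obtain ⟨c, hc0, hc, hc'⟩ := ih
      have h3 := hb (f^[n] p)
      have h4 : (1 + u (f^[n] p) * (w (f^[n] p) + r (f (f^[n] p))))⁻¹ ≤ 1 / 2 := by
        rw [one_div]
        exact inv_anti₀ (by norm_num) h3
      have h5 : 0 ≤ (1 + u (f^[n] p) * (w (f^[n] p) + r (f (f^[n] p))))⁻¹ :=
        inv_nonneg.2 (by linarith)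
      refine ⟨c * (1 + u (f^[n] p) * (w (f^[n] p) + r (f (f^[n] p))))⁻¹, mul_nonneg hc0 h5, ?_, ?_⟩
      · rw [pow_succ]
        exact mul_le_mul hc h4 h5 (by positivity)
      · rw [D_iterate_succ hf, ContinuousLinearMap.comp_apply, hc', map_smul, hS, smul_smul,
          Function.iterate_succ_apply']
  refine ⟨fun p => ⟨Set.univ, univ_mem, fun q => eS (r q), (continuous_eS.comp hr).continuousOn,
      fun q _ => ⟨eS_ne_zero _, rfl⟩⟩,
    fun p => ⟨Set.univ, univ_mem, fun q => eU (s q), (continuous_eU.comp hs).continuousOn,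
      fun q _ => ⟨eU_ne_zero _, rfl⟩⟩,
    fun p => isCompl_frames (hr0 p) (hs0 p), fun p => ?_, fun p => ?_,
    2, 1 / 2, by norm_num, by norm_num, by norm_num, fun p n => ⟨?_, ?_⟩⟩
  · unfold lineS
    rw [Submodule.map_span, Set.image_singleton, ContinuousLinearMap.coe_coe, hS,
      Submodule.span_singleton_smul_eq]
    exact (inv_ne_zero (by linarith [hb p])).isUnit
  · unfold lineU
    rw [Submodule.map_span, Set.image_singleton, ContinuousLinearMap.coe_coe, hU,
      Submodule.span_singleton_smul_eq]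
    exact (ne_of_gt (by linarith [ha p])).isUnit
  · intro v hv
    obtain ⟨a, rfl⟩ := Submodule.mem_span_singleton.1 hv
    obtain ⟨c, hc0, hc, hc'⟩ := hSn p n
    rw [map_smul, hc', norm_smul, norm_smul, norm_smul, Real.norm_of_nonneg hc0]
    have h1 := norm_eS_le (hr0 (f^[n] p)) (hr1 (f^[n] p))
    have h2 := one_le_norm_eS (r p)
    have h3 : c * ‖eS (r (f^[n] p))‖ ≤ (1 / 2) ^ n * 2 :=
      mul_le_mul hc h1 (norm_nonneg _) (by positivity)
    have h4 : (0 : ℝ) < (1 / 2) ^ n := by positivity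
    have h5 : c * ‖eS (r (f^[n] p))‖ ≤ 2 * (1 / 2) ^ n * ‖eS (r p)‖ := by nlinarith
    calc ‖a‖ * (c * ‖eS (r (f^[n] p))‖) ≤ ‖a‖ * (2 * (1 / 2) ^ n * ‖eS (r p)‖) :=
          mul_le_mul_of_nonneg_left h5 (norm_nonneg _)
      _ = _ := by ring
  · intro v hv
    obtain ⟨a, rfl⟩ := Submodule.mem_span_singleton.1 hv
    obtain ⟨c, hc, hc'⟩ := hUn p n
    have h0 : (0 : ℝ) < 2 ^ n := by positivity
    rw [map_smul, hc', norm_smul, norm_smul, norm_smul, Real.norm_of_nonneg (by linarith : 0 ≤ c)]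
    have h1 := norm_eU_le (hs0 p) (hs1 p)
    have h2 := one_le_norm_eU (s (f^[n] p))
    have h3 : 2 ^ n ≤ c * ‖eU (s (f^[n] p))‖ := by nlinarith
    have h4 : (1 / 2 : ℝ) ^ n * 2 ^ n = 1 := by rw [← mul_pow]; norm_num
    have h5 : (0 : ℝ) < (1 / 2) ^ n := by positivity
    have h6 : 1 ≤ (1 / 2) ^ n * (c * ‖eU (s (f^[n] p))‖) := by nlinarith
    have h7 : ‖eU (s p)‖ ≤ 2 * (1 / 2) ^ n * (c * ‖eU (s (f^[n] p))‖) := by nlinarith
    calc ‖a‖ * ‖eU (s p)‖ ≤ ‖a‖ * (2 * (1 / 2) ^ n * (c * ‖eU (s (f^[n] p))‖)) :=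
          mul_le_mul_of_nonneg_left h7 (norm_nonneg _)
      _ = _ := by ring

lemma norm_comp_subtypeL_span (A : Plane →L[ℝ] Plane) {e : Plane} (he : e ≠ 0) :
    ‖A.comp (Submodule.span ℝ {e}).subtypeL‖ = ‖A e‖ / ‖e‖ := by
  have hn : 0 < ‖e‖ := norm_pos_iff.2 he
  refine ContinuousLinearMap.opNorm_eq_of_bounds (by positivity) ?_ ?_
  · rintro ⟨x, hx⟩
    obtain ⟨a, rfl⟩ := Submodule.mem_span_singleton.1 hx
    simp only [ContinuousLinearMap.comp_apply, Submodule.subtypeL_apply, map_smul, norm_smul,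
      Submodule.coe_norm]
    apply le_of_eq
    field_simp
  · intro N _ hN
    have := hN ⟨e, Submodule.mem_span_singleton_self e⟩
    simp only [ContinuousLinearMap.comp_apply, Submodule.subtypeL_apply,
      Submodule.coe_norm] at this
    rwa [div_le_iff₀ hn]

lemma measurable_geomPotential {f : Torus → Torus} {u w s : Torus → ℝ}
    (hD : ∀ p, D f p = shearCLM (u p) (w p)) (hu : Continuous u) (hw : Continuous w)
    (hs : Continuous s) (t : ℝ) : Measurable (geomPotential f (lineU s) t) := by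
  have h : geomPotential f (lineU s) t = fun p => -t * Real.log
      (‖(!₂[1 + w p * (s p + u p * 1), s p + u p * 1] : Plane)‖ / ‖eU (s p)‖) := by
    funext p
    unfold geomPotential lineU
    rw [norm_comp_subtypeL_span _ (eU_ne_zero _), hD, shearCLM_apply]
    simp [eU]
  rw [h]
  refine measurable_const.mul (Real.measurable_log.comp ?_)
  refine Measurable.div (Continuous.measurable ?_) (continuous_eU.comp hs).norm.measurable
  fun_prop

end Pool.Agent.Lib.MP_480559_an
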