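import Mathlib

/-!
Definitions for smooth Anosov diffeomorphisms of the two-torus, metric entropy and pressure.
-/

open MeasureTheory
open scoped ENNReal

noncomputable section

namespace Pool.Agent.Lib.MP_480559_an

/-- The Euclidean plane (the universal cover, and every tangent space, of the torus). -/
abbrev Plane : Type := EuclideanSpace ℝ (Fin 2)

/-- The torus `ℝ²/ℤ² = (ℝ/ℤ) × (ℝ/ℤ)`; its `volume` is Lebesgue (area) measure. -/
abbrev Torus : Type := UnitAddCircle × UnitAddCircle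

/-- The covering projection `ℝ² → ℝ²/ℤ²`. -/
def proj (x : Plane) : Torus := (((x 0 : ℝ) : UnitAddCircle), ((x 1 : ℝ) : UnitAddCircle))

/-- `f` is a `C^r` self-map of the torus: it has a `C^r` lift to the plane. -/
def IsCr (r : WithTop ℕ∞) (f : Torus → Torus) : Prop :=
  ∃ F : Plane → Plane, ContDiff ℝ r F ∧ ∀ x : Plane, f (proj x) = proj (F x)

/-- `f` is a `C^r` diffeomorphism of the torus: `f` and its inverse are `C^r`. -/
def IsDiffeo (r : WithTop ℕ∞) (f : Torus ≃ₜ Torus) : Prop :=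
  IsCr r f ∧ IsCr r f.symm

/-- The representative in `[-1/2, 1/2)²` of a point of the torus (the standard chart at `0`). -/
def rep (p : Torus) : Plane :=
  !₂[((AddCircle.equivIco (1 : ℝ) (-1 / 2) p.1 : ℝ)), ((AddCircle.equivIco (1 : ℝ) (-1 / 2) p.2 : ℝ))]

/-- The derivative `Df(p)` of a self-map of the torus, read in the flat charts centred at `p`
and at `f p`. -/
def D (f : Torus → Torus) (p : Torus) : Plane →L[ℝ] Plane :=
  fderiv ℝ (fun v : Plane => rep (f (p + proj v) - f p)) 0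

/-- A continuous line subbundle of the tangent bundle `Torus × Plane`: near every point it is
spanned by a continuous nowhere vanishing vector field. -/
def IsLineBundle (E : Torus → Submodule ℝ Plane) : Prop :=
  ∀ p : Torus, ∃ U ∈ nhds p, ∃ e : Torus → Plane, ContinuousOn e U ∧
    ∀ q ∈ U, e q ≠ 0 ∧ E q = Submodule.span ℝ {e q}

/-- `Es ⊕ Eu` is an Anosov splitting for `f`: a continuous `Df`-invariant splitting into line
bundles, uniformly contracted on `Es` and uniformly expanded on `Eu`. -/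
def IsAnosovSplitting (f : Torus → Torus) (Es Eu : Torus → Submodule ℝ Plane) : Prop :=
  IsLineBundle Es ∧ IsLineBundle Eu ∧ (∀ p : Torus, IsCompl (Es p) (Eu p)) ∧
  (∀ p : Torus, (Es p).map (D f p : Plane →ₗ[ℝ] Plane) = Es (f p)) ∧
  (∀ p : Torus, (Eu p).map (D f p : Plane →ₗ[ℝ] Plane) = Eu (f p)) ∧
  ∃ C lam : ℝ, 0 < C ∧ 0 < lam ∧ lam < 1 ∧ ∀ (p : Torus) (n : ℕ),
    (∀ v ∈ Es p, ‖D f^[n] p v‖ ≤ C * lam ^ n * ‖v‖) ∧
    (∀ v ∈ Eu p, ‖v‖ ≤ C * lam ^ n * ‖D f^[n] p v‖)

/-- The geometric potential `-t log |Df restricted to Eu|`. -/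
def geomPotential (f : Torus → Torus) (Eu : Torus → Submodule ℝ Plane) (t : ℝ) (p : Torus) : ℝ :=
  -t * Real.log ‖(D f p).comp (Eu p).subtypeL‖

/-- Shannon entropy of the join `ξ ∨ f⁻¹ξ ∨ ⋯ ∨ f^{-(n-1)}ξ` of the finite partition into the
fibres of `ξ`. -/
def blockEntropy {X : Type} [MeasurableSpace X] (μ : Measure X) (f : X → X) {k : ℕ}
    (ξ : X → Fin k) (n : ℕ) : ℝ :=
  ∑ w : Fin n → Fin k, Real.negMulLog (μ.real {x : X | ∀ i : Fin n, ξ (f^[(i : ℕ)] x) = w i})

/-- Kolmogorov–Sinai (metric) entropy `h_μ(f)`. -/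
def metricEntropy {X : Type} [MeasurableSpace X] (μ : Measure X) (f : X → X) : ℝ≥0∞ :=
  ⨆ (k : ℕ) (ξ : X → Fin k) (_ : Measurable ξ),
    Filter.limsup (fun n : ℕ => ENNReal.ofReal (blockEntropy μ f ξ n / (n : ℝ))) Filter.atTop

/-- The pressure `P(φ) = sup_μ (h_μ(f) + ∫ φ dμ)` over `f`-invariant probability measures. -/
def pressure {X : Type} [MeasurableSpace X] (f : X → X) (φ : X → ℝ) : EReal :=
  ⨆ (μ : Measure X) (_ : IsProbabilityMeasure μ) (_ : MeasurePreserving f μ μ),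
    ((metricEntropy μ f : EReal) + ((∫ x, φ x ∂μ : ℝ) : EReal))

end Pool.Agent.Lib.MP_480559_an
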