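import Pool.Agent.Lib.MP_480559_an.Defs

/-!
Metric entropy and pressure are unchanged by finite-to-one extensions.
-/

open MeasureTheory Filter Topology
open scoped ENNReal

noncomputable section

namespace Pool.Agent.Lib.MP_480559_an

/-- Shannon entropy of a finite-valued function. -/
def shannon {Ω α : Type} [MeasurableSpace Ω] [Fintype α] (μ : Measure Ω) (Z : Ω → α) : ℝ :=
  ∑ a : α, Real.negMulLog (μ.real (Z ⁻¹' {a}))

lemma negMulLog_sum_le {ι : Type} (s : Finset ι) (p : ι → ℝ) (hp : ∀ i ∈ s, 0 ≤ p i) :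
    Real.negMulLog (∑ i ∈ s, p i) ≤ ∑ i ∈ s, Real.negMulLog (p i) := by
  have h1 : Real.negMulLog (∑ i ∈ s, p i) = ∑ i ∈ s, (-(p i) * Real.log (∑ j ∈ s, p j)) := by
    rw [Real.negMulLog, ← Finset.sum_mul, Finset.sum_neg_distrib]
  rw [h1]
  refine Finset.sum_le_sum fun i hi => ?_
  rw [Real.negMulLog]
  rcases (hp i hi).eq_or_lt with h | h
  · rw [← h]; simp
  · have : Real.log (p i) ≤ Real.log (∑ j ∈ s, p j) :=
      Real.log_le_log h (Finset.single_le_sum hp hi)
    nlinarith

lemma negMulLog_le_aux {p S : ℝ} (hp : 0 ≤ p) (hS : p ≤ S) :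
    Real.negMulLog p ≤ -p * Real.log S + S := by
  rw [Real.negMulLog]
  rcases hp.eq_or_lt with h | h
  · rw [← h]; simp; linarith
  · have hS0 : 0 < S := lt_of_lt_of_le h hS
    have h1 : Real.log (S / p) ≤ S / p - 1 := Real.log_le_sub_one_of_pos (div_pos hS0 h)
    rw [Real.log_div hS0.ne' h.ne'] at h1
    have h2 : p * (Real.log S - Real.log p) ≤ p * (S / p - 1) := mul_le_mul_of_nonneg_left h1 hp
    have h3 : p * (S / p - 1) = S - p := by field_simp
    nlinarith

lemma sum_negMulLog_le {ι : Type} [Fintype ι] (p : ι → ℝ) (hp : ∀ i, 0 ≤ p i) :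
    ∑ i, Real.negMulLog (p i) ≤
      Real.negMulLog (∑ i, p i) + (Fintype.card ι : ℝ) * ∑ i, p i := by
  calc ∑ i, Real.negMulLog (p i) ≤ ∑ i, (-(p i) * Real.log (∑ j, p j) + ∑ j, p j) :=
        Finset.sum_le_sum fun i _ =>
          negMulLog_le_aux (hp i) (Finset.single_le_sum (fun j _ => hp j) (Finset.mem_univ i))
    _ = _ := by
        rw [Finset.sum_add_distrib, ← Finset.sum_mul, Finset.sum_neg_distrib, Real.negMulLog]
        simp

lemma shannon_comp_le {Ω α β : Type} [MeasurableSpace Ω] [Fintype α] [Fintype β]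
    (μ : Measure Ω) [IsFiniteMeasure μ] (Z : Ω → α) (hZ : ∀ a, MeasurableSet (Z ⁻¹' {a}))
    (c : α → β) : shannon μ (c ∘ Z) ≤ shannon μ Z := by
  classical
  unfold shannon
  rw [← Finset.sum_fiberwise (s := Finset.univ) (g := c)
    (f := fun a => Real.negMulLog (μ.real (Z ⁻¹' {a})))]
  refine Finset.sum_le_sum fun b _ => ?_
  have h : μ.real ((c ∘ Z) ⁻¹' {b}) =
      ∑ a ∈ Finset.univ.filter (fun a => c a = b), μ.real (Z ⁻¹' {a}) := by
    rw [sum_measureReal_preimage_singleton _ (fun a _ => hZ a)]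
    congr 1
    ext x
    simp
  rw [h]
  exact negMulLog_sum_le _ _ fun a _ => measureReal_nonneg

lemma shannon_prod_le {Ω Γ β : Type} [MeasurableSpace Ω] [Fintype Γ] [Fintype β]
    (μ : Measure Ω) [IsProbabilityMeasure μ] (σ : Ω → Γ) (Z : Ω → β)
    (hσ : ∀ a, MeasurableSet (σ ⁻¹' {a})) (hZ : ∀ b, MeasurableSet (Z ⁻¹' {b})) :
    shannon μ (fun x => (σ x, Z x)) ≤ shannon μ Z + (Fintype.card Γ : ℝ) := by
  classical
  unfold shannon
  rw [Fintype.sum_prod_type_right]
  have hm : ∀ q : Γ × β, MeasurableSet ((fun x => (σ x, Z x)) ⁻¹' {q}) := by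
    intro q
    have : (fun x => (σ x, Z x)) ⁻¹' {q} = σ ⁻¹' {q.1} ∩ Z ⁻¹' {q.2} := by
      ext x; simp [Prod.ext_iff]
    rw [this]; exact (hσ _).inter (hZ _)
  have h1 : ∀ b, ∑ γ : Γ, μ.real ((fun x => (σ x, Z x)) ⁻¹' {(γ, b)}) = μ.real (Z ⁻¹' {b}) := by
    intro b
    have h2 := sum_measureReal_preimage_singleton (μ := μ)
      (Finset.univ.image (fun γ : Γ => (γ, b))) (f := fun x => (σ x, Z x)) (fun q _ => hm q)
    rw [Finset.sum_image (fun a _ a' _ h => (Prod.ext_iff.1 h).1)] at h2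
    rw [h2]
    congr 1
    ext x
    simp [eq_comm]
  have h3 : ∑ b : β, μ.real (Z ⁻¹' {b}) = 1 := by
    rw [sum_measureReal_preimage_singleton _ (fun b _ => hZ b)]
    simp
  calc ∑ b : β, ∑ γ : Γ, Real.negMulLog (μ.real ((fun x => (σ x, Z x)) ⁻¹' {(γ, b)}))
      ≤ ∑ b : β, (Real.negMulLog (μ.real (Z ⁻¹' {b})) +
          (Fintype.card Γ : ℝ) * μ.real (Z ⁻¹' {b})) := by
        refine Finset.sum_le_sum fun b _ => ?_
        have := sum_negMulLog_le (fun γ : Γ => μ.real ((fun x => (σ x, Z x)) ⁻¹' {(γ, b)}))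
          (fun _ => measureReal_nonneg)
        rwa [h1 b] at this
    _ = _ := by rw [Finset.sum_add_distrib, ← Finset.mul_sum, h3, mul_one]

/-- The itinerary of length `n`. -/
def itin {X α : Type} (f : X → X) (ξ : X → α) (n : ℕ) (x : X) : Fin n → α :=
  fun i => ξ (f^[(i : ℕ)] x)

lemma blockEntropy_eq {X : Type} [MeasurableSpace X] (μ : Measure X) (f : X → X) {k : ℕ}
    (ξ : X → Fin k) (n : ℕ) : blockEntropy μ f ξ n = shannon μ (itin f ξ n) := by
  unfold blockEntropy shannon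
  refine Finset.sum_congr rfl fun w _ => ?_
  congr 2
  ext x
  simp [itin, funext_iff]

lemma measurableSet_itin {X α : Type} [MeasurableSpace X] {f : X → X} (hf : Measurable f)
    {ξ : X → α} (hξ : ∀ a, MeasurableSet (ξ ⁻¹' {a})) (n : ℕ) (w : Fin n → α) :
    MeasurableSet (itin f ξ n ⁻¹' {w}) := by
  have : itin f ξ n ⁻¹' {w} = ⋂ i : Fin n, (f^[(i : ℕ)]) ⁻¹' (ξ ⁻¹' {w i}) := by
    ext x; simp [itin, funext_iff]
  rw [this]
  exact MeasurableSet.iInter fun i => (hf.iterate _) (hξ _)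

lemma shannon_map {X Y α : Type} [MeasurableSpace X] [MeasurableSpace Y] [Fintype α]
    (μ : Measure X) {π : X → Y} (hπ : Measurable π) (Z : Y → α)
    (hZ : ∀ a, MeasurableSet (Z ⁻¹' {a})) : shannon (μ.map π) Z = shannon μ (Z ∘ π) := by
  unfold shannon
  refine Finset.sum_congr rfl fun a _ => ?_
  rw [map_measureReal_apply hπ (hZ a)]
  rfl

lemma itin_semiconj {X Y α : Type} {π : X → Y} {g : X → X} {f : Y → Y}
    (h : ∀ x, π (g x) = f (π x)) (ξ : Y → α) (n : ℕ) :
    itin f ξ n ∘ π = itin g (ξ ∘ π) n := by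
  funext x i
  have : Function.Semiconj π g f := h
  simp only [itin, Function.comp_apply, (this.iterate_right (i : ℕ)).eq]

lemma metricEntropy_map_le {X Y : Type} [MeasurableSpace X] [MeasurableSpace Y]
    (μ : Measure X) {π : X → Y} (hπ : Measurable π) {g : X → X} {f : Y → Y} (hf : Measurable f)
    (h : ∀ x, π (g x) = f (π x)) : metricEntropy (μ.map π) f ≤ metricEntropy μ g := by
  unfold metricEntropy
  refine iSup_le fun k => iSup_le fun ξ => iSup_le fun hξ => ?_
  refine le_iSup_of_le k (le_iSup_of_le (ξ ∘ π) (le_iSup_of_le (hξ.comp hπ) (le_of_eq ?_)))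
  congr 1
  funext n
  rw [blockEntropy_eq, blockEntropy_eq, shannon_map μ hπ _
    (measurableSet_itin hf (fun a => hξ (measurableSet_singleton a)) n), itin_semiconj h]

/-- Recursive computation of the sheet from the initial sheet and the transition maps. -/
def sheet {Γ : Type} (W : ℕ → Γ → Γ) (γ : Γ) : ℕ → Γ
  | 0 => γ
  | j + 1 => W j (sheet W γ j)

lemma metricEntropy_le_map {X Y Γ : Type} [MeasurableSpace X] [MeasurableSpace Y] [Fintype Γ]
    (μ : Measure X) [IsProbabilityMeasure μ] {π : X → Y} (hπ : Measurable π) {σ : X → Γ}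
    (hσ : ∀ a, MeasurableSet (σ ⁻¹' {a})) {s : Y → Γ → X}
    (hs : ∀ γ, Measurable (fun y => s y γ)) (hs1 : ∀ x, s (π x) (σ x) = x)
    {g : X → X} (hg : Measurable g) {f : Y → Y} (hf : Measurable f)
    (h : ∀ x, π (g x) = f (π x)) : metricEntropy μ g ≤ metricEntropy (μ.map π) f := by
  classical
  unfold metricEntropy
  refine iSup_le fun k => iSup_le fun ξ => iSup_le fun hξ => ?_
  let ζ : Y → (Γ → Fin k) × (Γ → Γ) := fun y => (fun γ => ξ (s y γ), fun γ => σ (g (s y γ)))
  have hζ : ∀ a, MeasurableSet (ζ ⁻¹' {a}) := by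
    intro a
    have : ζ ⁻¹' {a} = (⋂ γ, (fun y => s y γ) ⁻¹' (ξ ⁻¹' {a.1 γ})) ∩
        ⋂ γ, (fun y => s y γ) ⁻¹' (g ⁻¹' (σ ⁻¹' {a.2 γ})) := by
      ext y; simp [ζ, Prod.ext_iff, funext_iff]
    rw [this]
    exact (MeasurableSet.iInter fun γ => hs γ (hξ (measurableSet_singleton _))).inter
      (MeasurableSet.iInter fun γ => hs γ (hg (hσ _)))
  let e := Fintype.equivFin ((Γ → Fin k) × (Γ → Γ))
  let ξ' : Y → Fin (Fintype.card ((Γ → Fin k) × (Γ → Γ))) := e ∘ ζ
  have hξ'0 : ∀ a, MeasurableSet (ξ' ⁻¹' {a}) := by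
    intro a
    have : ξ' ⁻¹' {a} = ζ ⁻¹' {e.symm a} := by
      ext y; simp [ξ', Equiv.eq_symm_apply]
    rw [this]; exact hζ _
  have hξ' : Measurable ξ' := measurable_to_countable' hξ'0
  refine le_iSup_of_le _ (le_iSup_of_le ξ' (le_iSup_of_le hξ' ?_))
  have hsemi : Function.Semiconj π g f := h
  have key : ∀ n, blockEntropy μ g ξ n ≤
      blockEntropy (μ.map π) f ξ' n + (Fintype.card Γ : ℝ) := by
    intro n
    let W : (Fin n → Fin (Fintype.card ((Γ → Fin k) × (Γ → Γ)))) → ℕ → Γ → Γ :=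
      fun w j => if hj : j < n then (e.symm (w ⟨j, hj⟩)).2 else id
    let c : Γ × (Fin n → Fin (Fintype.card ((Γ → Fin k) × (Γ → Γ)))) → (Fin n → Fin k) :=
      fun q i => (e.symm (q.2 i)).1 (sheet (W q.2) q.1 i)
    have hsheet : ∀ x j, j ≤ n → sheet (W (itin f ξ' n (π x))) (σ x) j = σ (g^[j] x) := by
      intro x j
      induction j with
      | zero => intro _; rfl
      | succ j ih =>
        intro hj
        have hj' : j < n := hj
        rw [sheet, ih hj'.le]
        simp only [W, dif_pos hj', itin, ξ', Function.comp_apply, Equiv.symm_apply_apply, ζ]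
        rw [← (hsemi.iterate_right j).eq, hs1, Function.iterate_succ_apply']
    have hc : itin g ξ n = c ∘ (fun x => (σ x, (itin f ξ' n ∘ π) x)) := by
      funext x i
      simp only [c, Function.comp_apply]
      rw [hsheet x i i.2.le]
      simp only [itin, ξ', Function.comp_apply, Equiv.symm_apply_apply, ζ]
      rw [← (hsemi.iterate_right (i : ℕ)).eq, hs1]
    have hZ : ∀ b, MeasurableSet ((itin f ξ' n ∘ π) ⁻¹' {b}) := fun b =>
      hπ (measurableSet_itin hf hξ'0 n b)
    rw [blockEntropy_eq, blockEntropy_eq, shannon_map μ hπ _ (measurableSet_itin hf hξ'0 n), hc]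
    refine le_trans (shannon_comp_le μ _ ?_ c) (shannon_prod_le μ σ _ hσ hZ)
    intro q
    have : (fun x => (σ x, (itin f ξ' n ∘ π) x)) ⁻¹' {q} =
        σ ⁻¹' {q.1} ∩ (itin f ξ' n ∘ π) ⁻¹' {q.2} := by
      ext x; simp [Prod.ext_iff]
    rw [this]; exact (hσ _).inter (hZ _)
  have hlim : Tendsto (fun n : ℕ => ENNReal.ofReal ((Fintype.card Γ : ℝ) / (n : ℝ))) atTop
      (𝓝 0) := by
    have := ENNReal.tendsto_ofReal (tendsto_const_div_atTop_nhds_zero_nat (Fintype.card Γ : ℝ))
    simpa using this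
  rw [← ENNReal.limsup_add_of_right_tendsto_zero hlim
    (fun n : ℕ => ENNReal.ofReal (blockEntropy (μ.map π) f ξ' n / (n : ℝ)))]
  refine limsup_le_limsup (Eventually.of_forall fun n => ?_)
  refine le_trans (ENNReal.ofReal_le_ofReal ?_) ENNReal.ofReal_add_le
  rw [← add_div]
  exact div_le_div_of_nonneg_right (key n) (Nat.cast_nonneg n)

theorem pressure_cover {X Y Γ : Type} [MeasurableSpace X] [MeasurableSpace Y] [Fintype Γ]
    [Nonempty Γ] {π : X → Y} (hπ : Measurable π) {σ : X → Γ}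
    (hσ : ∀ a, MeasurableSet (σ ⁻¹' {a})) {s : Y → Γ → X}
    (hs : ∀ γ, Measurable (fun y => s y γ)) (hs1 : ∀ x, s (π x) (σ x) = x)
    (hs2 : ∀ y γ, π (s y γ) = y) (hs3 : ∀ y γ, σ (s y γ) = γ)
    {g : X → X} (hg : Measurable g) (hgi : Function.Injective g) {f : Y → Y} (hf : Measurable f)
    (h : ∀ x, π (g x) = f (π x)) {φ : Y → ℝ} (hφ : Measurable φ) :
    pressure g (φ ∘ π) = pressure f φ := by
  classical
  have hterm : ∀ (μ : Measure X) [IsProbabilityMeasure μ],
      ((metricEntropy μ g : EReal) + ((∫ x, (φ ∘ π) x ∂μ : ℝ) : EReal)) =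
      ((metricEntropy (μ.map π) f : EReal) + ((∫ y, φ y ∂(μ.map π) : ℝ) : EReal)) := by
    intro μ _
    rw [le_antisymm (metricEntropy_le_map μ hπ hσ hs hs1 hg hf h)
      (metricEntropy_map_le μ hπ hf h), integral_map hπ.aemeasurable hφ.aestronglyMeasurable]
    rfl
  unfold pressure
  apply le_antisymm
  · refine iSup_le fun μ => iSup_le fun hμ => iSup_le fun hinv => ?_
    have hP : IsProbabilityMeasure (μ.map π) := Measure.isProbabilityMeasure_map hπ.aemeasurable
    have hI : MeasurePreserving f (μ.map π) (μ.map π) := by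
      refine ⟨hf, ?_⟩
      rw [Measure.map_map hf hπ]
      have : f ∘ π = π ∘ g := by funext x; exact (h x).symm
      rw [this, ← Measure.map_map hπ hg, hinv.map_eq]
    rw [hterm μ]
    exact le_iSup_of_le (μ.map π) (le_iSup_of_le hP (le_iSup_of_le hI le_rfl))
  · refine iSup_le fun ν => iSup_le fun hν => iSup_le fun hinv => ?_
    let N : ℝ≥0∞ := Fintype.card Γ
    have hN0 : N ≠ 0 := by simp [N]
    have hNt : N ≠ ∞ := by simp [N]
    let μ : Measure X := N⁻¹ • ∑ γ : Γ, ν.map (fun y => s y γ)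
    have hμA : ∀ A, MeasurableSet A → μ A = N⁻¹ * ∑ γ : Γ, ν ((fun y => s y γ) ⁻¹' A) := by
      intro A hA
      simp only [μ, Measure.smul_apply, Measure.coe_finsetSum, Finset.sum_apply, smul_eq_mul]
      congr 1
      exact Finset.sum_congr rfl fun γ _ => Measure.map_apply (hs γ) hA
    have hP : IsProbabilityMeasure μ := by
      constructor
      rw [hμA _ MeasurableSet.univ]
      simp only [Set.preimage_univ, measure_univ, Finset.sum_const, Finset.card_univ,
        nsmul_eq_mul, mul_one]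
      exact ENNReal.inv_mul_cancel hN0 hNt
    have hmap : μ.map π = ν := by
      ext A hA
      rw [Measure.map_apply hπ hA, hμA _ (hπ hA)]
      have : ∀ γ, (fun y => s y γ) ⁻¹' (π ⁻¹' A) = A := by
        intro γ; ext y; simp [hs2]
      simp only [this, Finset.sum_const, Finset.card_univ, nsmul_eq_mul]
      rw [← mul_assoc, ENNReal.inv_mul_cancel hN0 hNt, one_mul]
    have hI : MeasurePreserving g μ μ := by
      refine ⟨hg, ?_⟩
      ext A hA
      rw [Measure.map_apply hg hA, hμA _ (hg hA), hμA _ hA]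
      congr 1
      have e1 : ∀ γ, ν ((fun y => s y γ) ⁻¹' (g ⁻¹' A)) =
          ∫⁻ y, A.indicator (1 : X → ℝ≥0∞) (g (s y γ)) ∂ν := by
        intro γ
        rw [← lintegral_indicator_one (hs γ (hg hA))]
        rfl
      have e2 : ∀ γ, ν ((fun y => s y γ) ⁻¹' A) =
          ∫⁻ y, A.indicator (1 : X → ℝ≥0∞) (s (f y) γ) ∂ν := by
        intro γ
        rw [← hinv.measure_preimage (hs γ hA).nullMeasurableSet,
          ← lintegral_indicator_one (hf (hs γ hA))]
        rfl
      have hind : Measurable (A.indicator (1 : X → ℝ≥0∞)) := measurable_one.indicator hA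
      simp only [e1, e2]
      have m1 : ∀ γ, Measurable (fun y => A.indicator (1 : X → ℝ≥0∞) (g (s y γ))) :=
        fun γ => hind.comp (hg.comp (hs γ))
      have m2 : ∀ γ, Measurable (fun y => A.indicator (1 : X → ℝ≥0∞) (s (f y) γ)) :=
        fun γ => hind.comp ((hs γ).comp hf)
      rw [← lintegral_finsetSum _ (fun γ _ => m1 γ), ← lintegral_finsetSum _ (fun γ _ => m2 γ)]
      congr 1
      funext y
      have hτ : ∀ γ, g (s y γ) = s (f y) (σ (g (s y γ))) := by
        intro γ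
        conv_lhs => rw [← hs1 (g (s y γ))]
        rw [h, hs2]
      have hinj : Function.Injective (fun γ => σ (g (s y γ))) := by
        intro a b hab
        have h1 : g (s y a) = g (s y b) := by
          rw [hτ a, hτ b]
          exact congrArg _ hab
        have h2 := congrArg σ (hgi h1)
        rwa [hs3, hs3] at h2
      let eτ : Γ ≃ Γ := Equiv.ofBijective _ (Finite.injective_iff_bijective.1 hinj)
      refine Fintype.sum_equiv eτ _ _ fun γ => ?_
      exact congrArg _ (hτ γ)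
    refine le_iSup_of_le μ (le_iSup_of_le hP (le_iSup_of_le hI (le_of_eq ?_)))
    rw [hterm μ, hmap]

end Pool.Agent.Lib.MP_480559_an
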