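import Pool.Agent.Lib.MP_480559_an.Shear

/-!
Fixed point data of the two double shears, and the resulting non-conjugacy.
-/

open MeasureTheory Filter Topology Real

noncomputable section

namespace Pool.Agent.Lib.MP_480559_an

/-- The point `(1/2, 1/2)`. -/
def P0 : Torus := (((1 / 2 : ℝ) : UnitAddCircle), ((1 / 2 : ℝ) : UnitAddCircle))

lemma circ_half : circ (pert 1) ((1 / 2 : ℝ) : UnitAddCircle) = 0 := by
  rw [circ_coe]
  have : phi 1 (1 / 2) = 1 := by
    unfold phi
    have : 2 * π * ((1 : ℤ) : ℝ) * (1 / 2) = π := by push_cast; ring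
    rw [this, sin_pi]; norm_num
  rw [this]
  exact AddCircle.coe_period 1

lemma slope_half : slope 1 ((1 / 2 : ℝ) : UnitAddCircle) = 1 := by
  rw [slope_coe]
  have : 2 * π * ((1 : ℤ) : ℝ) * (1 / 2) = π := by push_cast; ring
  rw [this, cos_pi]; norm_num

lemma shearMap_P0 : shearMap 1 P0 = P0 := by
  simp only [shearMap_apply, pairFun, P0, circ_half, add_zero]

lemma D_P0 : D (shearMap 1) P0 = shearCLM 1 1 := by
  rw [D_shearMap one_ne_zero, shearMap_P0]
  simp only [P0, slope_half]

lemma strictMono_phi_two : StrictMono (phi 2) := by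
  refine strictMono_of_deriv_pos fun t => ?_
  rw [(hasDerivAt_phi two_ne_zero t).deriv]
  linarith [one_le_slope 2 (t : UnitAddCircle)]

lemma slope_of_circ_eq_zero {x : UnitAddCircle} (h : circ (pert 2) x = 0) : slope 2 x = 3 := by
  induction x using QuotientAddGroup.induction_on with
  | H t =>
    rw [circ_coe, AddCircle.coe_eq_zero_iff] at h
    obtain ⟨n, hn⟩ := h
    have e : 2 * π * ((2 : ℤ) : ℝ) * ((n : ℝ) / 2) = n * (2 * π) := by push_cast; ring
    have h1 : phi 2 ((n : ℝ) / 2) = phi 2 t := by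
      rw [← hn]
      unfold phi
      rw [e]
      have := sin_int_mul_two_pi_sub 0 n
      simp only [sub_zero, sin_zero, neg_zero] at this
      rw [this]
      simp only [zero_div, add_zero, zsmul_eq_mul, mul_one]
      ring
    have h2 : (n : ℝ) / 2 = t := strictMono_phi_two.injective h1
    rw [slope_coe, ← h2, e, cos_int_mul_two_pi]
    norm_num

lemma D_fixed {q : Torus} (hq : shearMap 2 q = q) : D (shearMap 2) q = shearCLM 3 3 := by
  have h2 : q.2 + circ (pert 2) q.1 = q.2 := congrArg Prod.snd hq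
  have h1 : q.1 + circ (pert 2) (q.2 + circ (pert 2) q.1) = q.1 := congrArg Prod.fst hq
  rw [h2] at h1
  rw [D_shearMap two_ne_zero, hq, slope_of_circ_eq_zero (add_eq_left.1 h1),
    slope_of_circ_eq_zero (add_eq_left.1 h2)]

lemma plane_decomp (H : Plane →L[ℝ] Plane) (a b : ℝ) :
    H !₂[a, b] = a • H !₂[1, 0] + b • H !₂[0, 1] := by
  rw [← map_smul, ← map_smul, ← map_add]
  congr 1
  ext i
  fin_cases i <;> simp

lemma not_injective_of_conj (H : Plane →L[ℝ] Plane)
    (h : H.comp (shearCLM 1 1) = (shearCLM 3 3).comp H) : H !₂[1, 0] = 0 := by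
  have e0 := congrArg (fun T : Plane →L[ℝ] Plane => T !₂[1, 0]) h
  have e1 := congrArg (fun T : Plane →L[ℝ] Plane => T !₂[0, 1]) h
  simp only [ContinuousLinearMap.comp_apply, shearCLM_apply] at e0 e1
  rw [plane_decomp] at e0 e1
  have a0 := congrArg (fun v : Plane => v 0) e0
  have a1 := congrArg (fun v : Plane => v 1) e0
  have b0 := congrArg (fun v : Plane => v 0) e1
  have b1 := congrArg (fun v : Plane => v 1) e1
  simp at a0 a1 b0 b1
  ext i
  fin_cases i
  · simp; linarith
  · simp; linarith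

lemma not_injective_of_conj_inv (H : Plane →L[ℝ] Plane)
    (h : (shearCLM 3 3).comp (H.comp (shearCLM 1 1)) = H) : H !₂[1, 0] = 0 := by
  have e0 := congrArg (fun T : Plane →L[ℝ] Plane => T !₂[1, 0]) h
  have e1 := congrArg (fun T : Plane →L[ℝ] Plane => T !₂[0, 1]) h
  simp only [ContinuousLinearMap.comp_apply] at e0 e1
  rw [shearCLM_apply 1 1, plane_decomp, shearCLM_apply] at e0 e1
  have a0 := congrArg (fun v : Plane => v 0) e0
  have a1 := congrArg (fun v : Plane => v 1) e0
  have b0 := congrArg (fun v : Plane => v 0) e1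
  have b1 := congrArg (fun v : Plane => v 1) e1
  simp at a0 a1 b0 b1
  ext i
  fin_cases i
  · simp; linarith
  · simp; linarith

lemma D_ne_zero {h : Torus ≃ₜ Torus} (h1 : DiffLift h) (h2 : DiffLift h.symm) (p : Torus) :
    D h p !₂[1, 0] ≠ 0 := by
  intro h0
  have e : (h.symm : Torus → Torus) ∘ h = id := by funext q; simp
  have := D_comp h2 h1 p
  rw [e, D_id] at this
  have e1 := congrArg (fun T : Plane →L[ℝ] Plane => T !₂[1, 0] 0) this
  simp [h0] at e1

theorem not_conj {h : Torus ≃ₜ Torus} (h1 : DiffLift h) (h2 : DiffLift h.symm) :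
    ¬ ∀ p, h (shearMap 1 p) = shearMap 2 (h p) := by
  intro hc
  have hq : shearMap 2 (h P0) = h P0 := by rw [← hc, shearMap_P0]
  have e : (h : Torus → Torus) ∘ shearMap 1 = shearMap 2 ∘ h := funext hc
  have d1 := D_comp h1 (diffLift_shearMap 1) P0
  have d2 := D_comp (diffLift_shearMap 2) h1 P0
  rw [e, d2, shearMap_P0, D_P0, D_fixed hq] at d1
  exact D_ne_zero h1 h2 P0 (not_injective_of_conj _ d1.symm)

theorem not_conj_inv {h : Torus ≃ₜ Torus} (h1 : DiffLift h) (h2 : DiffLift h.symm) :
    ¬ ∀ p, h (shearMap 1 p) = (shearMap 2).symm (h p) := by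
  intro hc
  have hc' : ∀ p, shearMap 2 (h (shearMap 1 p)) = h p := fun p => by rw [hc]; simp
  have hq : shearMap 2 (h P0) = h P0 := by
    have := hc' P0
    rwa [shearMap_P0] at this
  have e : (shearMap 2 : Torus → Torus) ∘ ((h : Torus → Torus) ∘ shearMap 1) = h := funext hc'
  have d1 := D_comp h1 (diffLift_shearMap 1) P0
  have d2 := D_comp (diffLift_shearMap 2) (h1.comp (diffLift_shearMap 1)) P0
  rw [e, d1, Function.comp_apply, shearMap_P0, D_P0, D_fixed hq] at d2
  exact D_ne_zero h1 h2 P0 (not_injective_of_conj_inv _ d2.symm)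

end Pool.Agent.Lib.MP_480559_an
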