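import Pool.Agent.Lib.MP_480559_an.Fixed

/-!
Anosov splittings from invariant frames, shears with arbitrary degree, and the maps of the
isospectral pair.
-/

open MeasureTheory Filter Topology Real

noncomputable section

namespace Pool.Agent.Lib.MP_480559_an

theorem isAnosovSplitting_of_frames {f : Torus → Torus} (hf : DiffLift f) {s r : Torus → ℝ}
    (hs : Continuous s) (hs0 : ∀ p, 0 ≤ s p) (hs1 : ∀ p, s p ≤ 1)
    (hr : Continuous r) (hr0 : ∀ p, 0 ≤ r p) (hr1 : ∀ p, r p ≤ 1)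
    (hU : ∀ p, ∃ c : ℝ, 2 ≤ c ∧ D f p (eU (s p)) = c • eU (s (f p)))
    (hS : ∀ p, ∃ c : ℝ, 0 < c ∧ c ≤ 1 / 2 ∧ D f p (eS (r p)) = c • eS (r (f p))) :
    IsAnosovSplitting f (lineS r) (lineU s) := by
  have hUn : ∀ p n, ∃ c : ℝ, 2 ^ n ≤ c ∧ D f^[n] p (eU (s p)) = c • eU (s (f^[n] p)) := by
    intro p n
    induction n with
    | zero => exact ⟨1, by simp, by simp [D_id]⟩
    | succ n ih =>
      obtain ⟨c, hc, hc'⟩ := ih
      obtain ⟨d, hd, hd'⟩ := hU (f^[n] p)
      refine ⟨c * d, ?_, ?_⟩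
      · rw [pow_succ]
        have h2 : (0 : ℝ) < 2 ^ n := by positivity
        nlinarith
      · rw [D_iterate_succ hf, ContinuousLinearMap.comp_apply, hc', map_smul, hd', smul_smul,
          Function.iterate_succ_apply']
  have hSn : ∀ p n, ∃ c : ℝ, 0 ≤ c ∧ c ≤ (1 / 2) ^ n ∧
      D f^[n] p (eS (r p)) = c • eS (r (f^[n] p)) := by
    intro p n
    induction n with
    | zero => exact ⟨1, by simp, by simp, by simp [D_id]⟩
    | succ n ih =>
      obtain ⟨c, hc0, hc, hc'⟩ := ih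
      obtain ⟨d, hd0, hd, hd'⟩ := hS (f^[n] p)
      refine ⟨c * d, mul_nonneg hc0 hd0.le, ?_, ?_⟩
      · rw [pow_succ]
        exact mul_le_mul hc hd hd0.le (by positivity)
      · rw [D_iterate_succ hf, ContinuousLinearMap.comp_apply, hc', map_smul, hd', smul_smul,
          Function.iterate_succ_apply']
  refine ⟨fun p => ⟨Set.univ, univ_mem, fun q => eS (r q), (continuous_eS.comp hr).continuousOn,
      fun q _ => ⟨eS_ne_zero _, rfl⟩⟩,
    fun p => ⟨Set.univ, univ_mem, fun q => eU (s q), (continuous_eU.comp hs).continuousOn,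
      fun q _ => ⟨eU_ne_zero _, rfl⟩⟩,
    fun p => isCompl_frames (hr0 p) (hs0 p), fun p => ?_, fun p => ?_,
    2, 1 / 2, by norm_num, by norm_num, by norm_num, fun p n => ⟨?_, ?_⟩⟩
  · obtain ⟨d, hd0, -, hd'⟩ := hS p
    unfold lineS
    rw [Submodule.map_span, Set.image_singleton, ContinuousLinearMap.coe_coe, hd',
      Submodule.span_singleton_smul_eq]
    exact hd0.ne'.isUnit
  · obtain ⟨d, hd, hd'⟩ := hU p
    unfold lineU
    rw [Submodule.map_span, Set.image_singleton, ContinuousLinearMap.coe_coe, hd',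
      Submodule.span_singleton_smul_eq]
    exact (ne_of_gt (by linarith)).isUnit
  · intro v hv
    obtain ⟨a, rfl⟩ := Submodule.mem_span_singleton.1 hv
    obtain ⟨c, hc0, hc, hc'⟩ := hSn p n
    rw [map_smul, hc', norm_smul, norm_smul, norm_smul, Real.norm_of_nonneg hc0]
    have h1 := norm_eS_le (hr0 (f^[n] p)) (hr1 (f^[n] p))
    have h2 := one_le_norm_eS (r p)
    have h3 : c * ‖eS (r (f^[n] p))‖ ≤ (1 / 2) ^ n * 2 :=
      mul_le_mul hc h1 (norm_nonneg _) (by positivity)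
    have h4 : (0 : ℝ) < (1 / 2) ^ n := by positivity
    have h5 : c * ‖eS (r (f^[n] p))‖ ≤ 2 * (1 / 2) ^ n * ‖eS (r p)‖ := by nlinarith
    calc ‖a‖ * (c * ‖eS (r (f^[n] p))‖) ≤ ‖a‖ * (2 * (1 / 2) ^ n * ‖eS (r p)‖) :=
          mul_le_mul_of_nonneg_left h5 (norm_nonneg _)
      _ = _ := by ring
  · intro v hv
    obtain ⟨a, rfl⟩ := Submodule.mem_span_singleton.1 hv
    obtain ⟨c, hc, hc'⟩ := hUn p n
    have h0 : (0 : ℝ) < 2 ^ n := by positivity
    rw [map_smul, hc', norm_smul, norm_smul, norm_smul, Real.norm_of_nonneg (by linarith : 0 ≤ c)]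
    have h1 := norm_eU_le (hs0 p) (hs1 p)
    have h2 := one_le_norm_eU (s (f^[n] p))
    have h3 : 2 ^ n ≤ c * ‖eU (s (f^[n] p))‖ := by nlinarith
    have h4 : (1 / 2 : ℝ) ^ n * 2 ^ n = 1 := by rw [← mul_pow]; norm_num
    have h5 : (0 : ℝ) < (1 / 2) ^ n := by positivity
    have h6 : 1 ≤ (1 / 2) ^ n * (c * ‖eU (s (f^[n] p))‖) := by nlinarith
    have h7 : ‖eU (s p)‖ ≤ 2 * (1 / 2) ^ n * (c * ‖eU (s (f^[n] p))‖) := by nlinarith
    calc ‖a‖ * ‖eU (s p)‖ ≤ ‖a‖ * (2 * (1 / 2) ^ n * (c * ‖eU (s (f^[n] p))‖)) :=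
          mul_le_mul_of_nonneg_left h7 (norm_nonneg _)
      _ = _ := by ring

/-- A smooth area-preserving diffeomorphism of the torus together with a lift. -/
structure Good (f : Torus ≃ₜ Torus) (G : Plane → Plane) : Prop where
  inv : IsCr ((⊤ : ℕ∞) : WithTop ℕ∞) f.symm
  smooth : ContDiff ℝ ((⊤ : ℕ∞) : WithTop ℕ∞) G
  area : MeasurePreserving f (volume : Measure Torus) (volume : Measure Torus)
  lift : ∀ x, f (proj x) = proj (G x)

theorem Good.trans {f f' : Torus ≃ₜ Torus} {G G' : Plane → Plane} (h : Good f G)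
    (h' : Good f' G') : Good (f.trans f') (G' ∘ G) := by
  obtain ⟨A, hA, hA'⟩ := h.inv
  obtain ⟨B, hB, hB'⟩ := h'.inv
  refine ⟨⟨A ∘ B, hA.comp hB, fun x => ?_⟩, h'.smooth.comp h.smooth, h'.area.comp h.area,
    fun x => ?_⟩
  · change f.symm (f'.symm (proj x)) = _
    rw [hB', hA']; rfl
  · change f' (f (proj x)) = _
    rw [h.lift, h'.lift]; rfl

theorem Good.isDiffeo {f : Torus ≃ₜ Torus} {G : Plane → Plane} (h : Good f G) :
    IsDiffeo ((⊤ : ℕ∞) : WithTop ℕ∞) f := ⟨⟨G, h.smooth, h.lift⟩, h.inv⟩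

theorem Good.diffLift {f : Torus ≃ₜ Torus} {G : Plane → Plane} (h : Good f G) : DiffLift f :=
  h.isDiffeo.1.diffLift (by exact_mod_cast le_top)

/-- A circle map with a smooth lift. -/
structure CircLift where
  c : UnitAddCircle → UnitAddCircle
  γ : ℝ → ℝ
  cont : Continuous c
  smooth : ContDiff ℝ ((⊤ : ℕ∞) : WithTop ℕ∞) γ
  lift : ∀ t : ℝ, c (t : UnitAddCircle) = ((γ t : ℝ) : UnitAddCircle)

/-- The lower shear. -/
def lo (a : CircLift) : Torus ≃ₜ Torus where
  toFun p := (p.1, p.2 + a.c p.1)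
  invFun p := (p.1, p.2 - a.c p.1)
  left_inv p := by simp
  right_inv p := by simp
  continuous_toFun := by have := a.cont; fun_prop
  continuous_invFun := by have := a.cont; fun_prop

/-- The upper shear. -/
def up (a : CircLift) : Torus ≃ₜ Torus where
  toFun p := (p.1 + a.c p.2, p.2)
  invFun p := (p.1 - a.c p.2, p.2)
  left_inv p := by simp
  right_inv p := by simp
  continuous_toFun := by have := a.cont; fun_prop
  continuous_invFun := by have := a.cont; fun_prop

/-- Lift of the lower shear. -/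
def loL (γ : ℝ → ℝ) (x : Plane) : Plane := !₂[x 0, x 1 + γ (x 0)]

/-- Lift of the upper shear. -/
def upL (γ : ℝ → ℝ) (x : Plane) : Plane := !₂[x 0 + γ (x 1), x 1]

theorem contDiff_loL {γ : ℝ → ℝ} (h : ContDiff ℝ ((⊤ : ℕ∞) : WithTop ℕ∞) γ) :
    ContDiff ℝ ((⊤ : ℕ∞) : WithTop ℕ∞) (loL γ) := by
  rw [contDiff_euclidean]
  intro i
  fin_cases i
  · simpa [loL] using contDiff_coord _ 0
  · simpa [loL] using (contDiff_coord _ 1).add (h.comp (contDiff_coord _ 0))

theorem contDiff_upL {γ : ℝ → ℝ} (h : ContDiff ℝ ((⊤ : ℕ∞) : WithTop ℕ∞) γ) :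
    ContDiff ℝ ((⊤ : ℕ∞) : WithTop ℕ∞) (upL γ) := by
  rw [contDiff_euclidean]
  intro i
  fin_cases i
  · simpa [upL] using (contDiff_coord _ 0).add (h.comp (contDiff_coord _ 1))
  · simpa [upL] using contDiff_coord _ 1

theorem good_lo (a : CircLift) : Good (lo a) (loL a.γ) := by
  refine ⟨⟨loL (fun t => -a.γ t), contDiff_loL a.smooth.neg, fun x => ?_⟩,
    contDiff_loL a.smooth, measurePreserving_shear a.cont, fun x => ?_⟩
  · change ((proj x).1, (proj x).2 - a.c (proj x).1) = _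
    simp [proj, loL, a.lift, sub_eq_add_neg]
  · change ((proj x).1, (proj x).2 + a.c (proj x).1) = _
    simp [proj, loL, a.lift]

theorem good_up (a : CircLift) : Good (up a) (upL a.γ) := by
  have hsw : MeasurePreserving (Prod.swap : Torus → Torus) volume volume :=
    Measure.measurePreserving_swap
  refine ⟨⟨upL (fun t => -a.γ t), contDiff_upL a.smooth.neg, fun x => ?_⟩,
    contDiff_upL a.smooth, hsw.comp ((measurePreserving_shear a.cont).comp hsw), fun x => ?_⟩
  · change ((proj x).1 - a.c (proj x).2, (proj x).2) = _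
    simp [proj, upL, a.lift, sub_eq_add_neg]
  · change ((proj x).1 + a.c (proj x).2, (proj x).2) = _
    simp [proj, upL, a.lift]

theorem good_add (v : Plane) : Good (Homeomorph.addRight (proj v)) (fun x => x + v) := by
  refine ⟨⟨fun x => x - v, contDiff_id.sub contDiff_const, fun x => ?_⟩,
    contDiff_id.add contDiff_const,
    (measurePreserving_add_right volume (proj v).1).prod
      (measurePreserving_add_right volume (proj v).2), fun x => ?_⟩
  · rw [proj_sub, sub_eq_add_neg]; rfl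
  · rw [proj_add]; simp

/-- The function `sin (2 π t) / (2 π)`. -/
def sg (t : ℝ) : ℝ := sin (2 * π * t) / (2 * π)

theorem contDiff_sg : ContDiff ℝ ((⊤ : ℕ∞) : WithTop ℕ∞) sg := by
  unfold sg
  fun_prop

theorem phi_one (t : ℝ) : phi 1 t = 2 * t + sg t := by simp [phi, sg]

/-- The circle map with lift `k t + e sg (m t)`. -/
def cl (k : ℤ) (e : ℝ) (m : ℤ) : CircLift where
  c x := k • x + ((e * pert 1 (m • x) : ℝ) : UnitAddCircle)
  γ t := k * t + e * sg (m * t)
  cont := (continuous_id.zsmul k).add (continuous_coe_circle.comp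
    (continuous_const.mul ((continuous_pert 1).comp (continuous_id.zsmul m))))
  smooth := (contDiff_const.mul contDiff_id).add
    (contDiff_const.mul (contDiff_sg.comp (contDiff_const.mul contDiff_id)))
  lift t := by
    rw [← AddCircle.coe_zsmul, ← AddCircle.coe_zsmul, pert_coe, ← AddCircle.coe_add]
    simp [sg]

/-- The base map, homotopic to the matrix with rows `(7, 2)` and `(3, 1)`. -/
def base : Torus ≃ₜ Torus := (lo (cl 3 1 1)).trans (up (cl 2 1 1))

/-- The lift of the base map, in the coordinates of the covering torus. -/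
def Hh (x : Plane) : Plane :=
  !₂[x 0 + phi 1 (4 * (x 1 + (2 * x 0 + phi 1 (2 * x 0)) / 4)) / 2,
    x 1 + (2 * x 0 + phi 1 (2 * x 0)) / 4]

/-- The lift of the square of the base map to the covering torus. -/
def f0 : Torus ≃ₜ Torus :=
  (((((((lo (cl 2 (1 / 4) 2)).trans (up (cl (-1) 0 0))).trans (lo (cl (-1) 0 0))).trans
    (up (cl 1 (1 / 4) 2))).trans (lo (cl 1 0 0))).trans (up (cl 1 0 0))).trans
    (lo (cl 1 (1 / 4) 2))).trans (up (cl 4 (1 / 2) 4))

theorem good_f0 : Good f0 (Hh ∘ Hh) := by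
  have h := (((((((good_lo (cl 2 (1 / 4) 2)).trans (good_up (cl (-1) 0 0))).trans
    (good_lo (cl (-1) 0 0))).trans (good_up (cl 1 (1 / 4) 2))).trans (good_lo (cl 1 0 0))).trans
    (good_up (cl 1 0 0))).trans (good_lo (cl 1 (1 / 4) 2))).trans (good_up (cl 4 (1 / 2) 4))
  suffices e : Hh ∘ Hh = _ by rw [e]; exact h
  funext x
  have e1 : (upL (cl 1 0 0).γ ∘ loL (cl 1 0 0).γ ∘ upL (cl 1 (1 / 4) 2).γ ∘ loL (cl (-1) 0 0).γ ∘
      upL (cl (-1) 0 0).γ ∘ loL (cl 2 (1 / 4) 2).γ) x = !₂[Hh x 0, Hh x 0 / 2 + Hh x 1] := by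
    ext i
    fin_cases i <;> simp [upL, loL, cl, Hh, phi_one] <;> ring_nf
  have e2 : ∀ y : Plane, upL (cl 4 (1 / 2) 4).γ (loL (cl 1 (1 / 4) 2).γ !₂[y 0, y 0 / 2 + y 1]) =
      Hh y := by
    intro y
    ext i
    fin_cases i <;> simp [upL, loL, cl, Hh, phi_one] <;> ring_nf
  rw [Function.comp_apply, ← e2, ← e1]
  rfl

end Pool.Agent.Lib.MP_480559_an
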