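import Pool.Agent.Lib.MP_480559_an.IsoA

/-!
The fine lattice, the eightfold cover, derivatives, Anosov splittings and pressure for the lifts
of the square of the base map.
-/

open MeasureTheory Filter Topology Real

noncomputable section

namespace Pool.Agent.Lib.MP_480559_an

/-- The point `(i / 2, j / 4)` of the fine lattice. -/
def gam (i j : ℤ) : Plane := !₂[(i : ℝ) / 2, (j : ℝ) / 4]

/-- The deck translations of the cover. -/
def Tr (i j : ℤ) : Torus := proj (gam i j)

/-- The lifts of the square of the base map. -/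
def ft (i j : ℤ) : Torus ≃ₜ Torus := f0.trans (Homeomorph.addRight (proj (gam i j)))

/-- The eightfold cover. -/
def cov (p : Torus) : Torus := (2 • p.1, 2 • (2 • p.2))

theorem ft_apply (i j : ℤ) (p : Torus) : ft i j p = f0 p + Tr i j := rfl

theorem good_ft (i j : ℤ) : Good (ft i j) ((fun x => x + gam i j) ∘ (Hh ∘ Hh)) :=
  good_f0.trans (good_add _)

theorem f0_lift (x : Plane) : f0 (proj x) = proj (Hh (Hh x)) := good_f0.lift x

theorem phi_add_int (t : ℝ) (n : ℤ) : phi 1 (t + n) = phi 1 t + 2 * n := by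
  rw [phi_one, phi_one, sg, sg]
  have : 2 * π * (t + n) = 2 * π * t + n * (2 * π) := by ring
  rw [this, sin_add_int_mul_two_pi]
  ring

theorem gam_add (i j k l : ℤ) : gam (i + k) (j + l) = gam i j + gam k l := by
  ext a
  fin_cases a <;> simp [gam] <;> ring

theorem gam_zero : gam 0 0 = 0 := by
  ext a
  fin_cases a <;> simp [gam]

theorem Hh_add (x : Plane) (i j : ℤ) :
    Hh (x + gam i j) = Hh x + gam (7 * i + 2 * j) (3 * i + j) := by
  have e1 : 2 * (x + gam i j) 0 = 2 * x 0 + i := by simp [gam]; ring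
  have e2 : 4 * ((x + gam i j) 1 + (2 * x 0 + i + (phi 1 (2 * x 0) + 2 * i)) / 4) =
      4 * (x 1 + (2 * x 0 + phi 1 (2 * x 0)) / 4) + ((3 * i + j : ℤ) : ℝ) := by
    simp [gam]; ring
  unfold Hh
  rw [e1, phi_add_int, e2, phi_add_int]
  ext a
  fin_cases a <;> simp [gam] <;> ring

theorem Hh_zero : Hh 0 = 0 := by
  ext a
  fin_cases a <;> simp [Hh, phi]

theorem proj_eq_zero_iff (x : Plane) : proj x = 0 ↔ ∃ a b : ℤ, x = gam (2 * a) (4 * b) := by
  constructor
  · intro h
    obtain ⟨a, ha⟩ := (AddCircle.coe_eq_zero_iff (1 : ℝ)).1 (congrArg Prod.fst h)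
    obtain ⟨b, hb⟩ := (AddCircle.coe_eq_zero_iff (1 : ℝ)).1 (congrArg Prod.snd h)
    refine ⟨a, b, ?_⟩
    ext i
    fin_cases i
    · simp [gam, ← ha]
    · simp [gam, ← hb]
  · rintro ⟨a, b, rfl⟩
    refine Prod.ext ((AddCircle.coe_eq_zero_iff (1 : ℝ)).2 ⟨a, ?_⟩)
      ((AddCircle.coe_eq_zero_iff (1 : ℝ)).2 ⟨b, ?_⟩) <;> simp [gam]

theorem proj_eq_iff (x y : Plane) :
    proj x = proj y ↔ ∃ a b : ℤ, x = y + gam (2 * a) (4 * b) := by
  rw [← sub_eq_zero, ← proj_sub, proj_eq_zero_iff]
  simp only [sub_eq_iff_eq_add']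

theorem gam_inj {i j k l : ℤ} (h : gam i j = gam k l) : i = k ∧ j = l := by
  have h0 := congrArg (fun v : Plane => v 0) h
  have h1 := congrArg (fun v : Plane => v 1) h
  simp [gam] at h0 h1
  exact ⟨h0, h1⟩

theorem Tr_eq_zero_iff (i j : ℤ) : Tr i j = 0 ↔ 2 ∣ i ∧ 4 ∣ j := by
  rw [Tr, proj_eq_zero_iff]
  constructor
  · rintro ⟨a, b, h⟩
    obtain ⟨rfl, rfl⟩ := gam_inj h
    exact ⟨dvd_mul_right _ _, dvd_mul_right _ _⟩
  · rintro ⟨⟨a, rfl⟩, ⟨b, rfl⟩⟩
    exact ⟨a, b, rfl⟩

theorem Tr_add (i j k l : ℤ) : Tr (i + k) (j + l) = Tr i j + Tr k l := by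
  rw [Tr, gam_add, proj_add]; rfl

theorem Tr_congr {i j k l : ℤ} (h1 : 2 ∣ i - k) (h2 : 4 ∣ j - l) : Tr i j = Tr k l := by
  have := Tr_add (i - k) (j - l) k l
  rwa [(Tr_eq_zero_iff _ _).2 ⟨h1, h2⟩, zero_add, sub_add_cancel, sub_add_cancel] at this

theorem f0_add (p : Torus) (i j : ℤ) : f0 (p + Tr i j) = f0 p + Tr (-i) (-j) := by
  obtain ⟨x, rfl⟩ := proj_surjective p
  rw [Tr, ← proj_add, f0_lift, f0_lift, Hh_add, Hh_add, proj_add]
  congr 1
  exact Tr_congr (by omega) (by omega)

theorem ft_ft (i j : ℤ) (p : Torus) : ft i j (ft i j p) = f0 (f0 p) := by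
  rw [ft_apply, ft_apply, f0_add, add_assoc, ← Tr_add, neg_add_cancel, neg_add_cancel,
    (Tr_eq_zero_iff 0 0).2 ⟨dvd_zero _, dvd_zero _⟩, add_zero]

theorem ft_even (i j : ℤ) (k : ℕ) (p : Torus) : (ft i j)^[2 * k] p = f0^[2 * k] p := by
  have : (ft i j)^[2] = f0^[2] := funext fun p => ft_ft i j p
  rw [Function.iterate_mul, Function.iterate_mul, this]

theorem f0_even_add (k : ℕ) (p : Torus) (i j : ℤ) :
    f0^[2 * k] (p + Tr i j) = f0^[2 * k] p + Tr i j := by
  induction k with
  | zero => rfl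
  | succ k ih =>
    have e : 2 * (k + 1) = 2 * k + 1 + 1 := by ring
    rw [e]
    simp only [Function.iterate_succ_apply']
    rw [ih, f0_add, f0_add, neg_neg, neg_neg]

theorem ft_odd (i j : ℤ) (k : ℕ) (p : Torus) :
    (ft i j)^[2 * k + 1] p = f0^[2 * k + 1] p + Tr i j := by
  rw [Function.iterate_succ_apply, Function.iterate_succ_apply, ft_even, ft_apply, f0_even_add]

theorem f0_odd_add (k : ℕ) (p : Torus) (i j : ℤ) :
    f0^[2 * k + 1] (p + Tr i j) = f0^[2 * k + 1] p + Tr (-i) (-j) := by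
  rw [Function.iterate_succ_apply, Function.iterate_succ_apply, f0_add, f0_even_add]

theorem f0_iter_lift (n : ℕ) (x : Plane) : f0^[n] (proj x) = proj ((Hh ∘ Hh)^[n] x) := by
  induction n with
  | zero => rfl
  | succ n ih =>
    rw [Function.iterate_succ_apply', Function.iterate_succ_apply', ih, f0_lift]; rfl

theorem cov_proj (x : Plane) : cov (proj x) = proj !₂[2 * x 0, 4 * x 1] := by
  simp only [cov, proj, ← AddCircle.coe_nsmul]
  congr 2 <;> simp
  ring

theorem cov_add (p q : Torus) : cov (p + q) = cov p + cov q := by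
  simp only [cov, Prod.fst_add, Prod.snd_add, smul_add, Prod.mk_add_mk]

theorem cov_eq_zero_iff (x : Plane) : cov (proj x) = 0 ↔ ∃ i j : ℤ, x = gam i j := by
  rw [cov_proj, proj_eq_zero_iff]
  constructor
  · rintro ⟨a, b, h⟩
    have h0 := congrArg (fun v : Plane => v 0) h
    have h1 := congrArg (fun v : Plane => v 1) h
    simp [gam] at h0 h1
    refine ⟨a, b, ?_⟩
    ext i
    fin_cases i <;> simp [gam] <;> linarith
  · rintro ⟨i, j, rfl⟩
    refine ⟨i, j, ?_⟩
    ext a
    fin_cases a <;> simp [gam] <;> ring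

theorem cov_add_Tr (p : Torus) (i j : ℤ) : cov (p + Tr i j) = cov p := by
  rw [cov_add, Tr, (cov_eq_zero_iff _).2 ⟨i, j, rfl⟩, add_zero]

theorem good_base : Good base (upL (cl 2 1 1).γ ∘ loL (cl 3 1 1).γ) :=
  (good_lo _).trans (good_up _)

theorem cov_Hh (x : Plane) : cov (proj (Hh x)) = base (cov (proj x)) := by
  rw [cov_proj, cov_proj, good_base.lift]
  congr 1
  ext i
  fin_cases i <;> simp [upL, loL, cl, Hh, phi_one] <;> ring_nf

theorem cov_ft (i j : ℤ) (p : Torus) : cov (ft i j p) = base (base (cov p)) := by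
  obtain ⟨x, rfl⟩ := proj_surjective p
  rw [ft_apply, cov_add_Tr, f0_lift, cov_Hh, cov_Hh]

theorem continuous_cov : Continuous cov := by
  unfold cov
  fun_prop

/-- Slope of the lower shear. -/
def uu (q : Torus) : ℝ := (1 + slope 1 q.1) / 2

/-- Slope of the upper shear. -/
def ww (q : Torus) : ℝ := 2 * slope 1 (base q).2

/-- The derivative of the half step. -/
def SS (q : Torus) : Plane →L[ℝ] Plane := shearCLM (uu q) (ww q)

theorem continuous_uu : Continuous uu :=
  (continuous_const.add ((continuous_slope 1).comp continuous_fst)).div_const _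

theorem continuous_ww : Continuous ww :=
  continuous_const.mul ((continuous_slope 1).comp (continuous_snd.comp base.continuous))

theorem one_le_uu (q : Torus) : 1 ≤ uu q := by
  have := one_le_slope 1 q.1
  unfold uu; linarith

theorem one_le_ww (q : Torus) : 1 ≤ ww q := by
  have := one_le_slope 1 (base q).2
  unfold ww; linarith

theorem hasFDerivAt_Hh (x : Plane) : HasFDerivAt Hh (SS (cov (proj x))) x := by
  have h0 : HasFDerivAt (fun x : Plane => x 0) (P 0) x := (P 0).hasFDerivAt
  have h1 : HasFDerivAt (fun x : Plane => x 1) (P 1) x := (P 1).hasFDerivAt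
  have h0' := h0.const_mul 2
  have h2 := h1.add ((h0'.add ((hasDerivAt_phi one_ne_zero (2 * x 0)).comp_hasFDerivAt x
    h0')).mul_const (1 / 4))
  have h2' := h2.const_mul 4
  have h3 := h0.add (((hasDerivAt_phi one_ne_zero _).comp_hasFDerivAt x h2').mul_const (1 / 2))
  have h4 := (h3.smul_const (!₂[1, 0] : Plane)).add (h2.smul_const (!₂[0, 1] : Plane))
  have eu : uu (cov (proj x)) = (1 + slope 1 ((2 * x 0 : ℝ) : UnitAddCircle)) / 2 := by
    rw [cov_proj]; simp [uu, proj]
  have ew : ww (cov (proj x)) = 2 * slope 1 ((4 * Hh x 1 : ℝ) : UnitAddCircle) := by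
    rw [ww, ← cov_Hh, cov_proj]; simp [proj]
  have e3 : (4 * Hh x 1 : ℝ) = 4 * (x 1 + (2 * x 0 + phi 1 (2 * x 0)) * (1 / 4)) := by
    simp [Hh]; ring
  refine (HasFDerivAt.congr_of_eventuallyEq h4 (Eventually.of_forall fun y => ?_)).congr_fderiv ?_
  · ext i
    fin_cases i <;> simp [Hh, div_eq_mul_inv]
  · ext v i
    rw [SS, shearCLM_apply, eu, ew, e3]
    fin_cases i <;> simp <;> ring

theorem D_ft (i j : ℤ) (p : Torus) : D (ft i j) p = (SS (base (cov p))).comp (SS (cov p)) := by
  obtain ⟨x, rfl⟩ := proj_surjective p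
  refine D_eq (good_ft i j).lift ?_
  rw [← cov_Hh]
  exact ((hasFDerivAt_Hh (Hh x)).comp x (hasFDerivAt_Hh x)).add_const _

/-- The derivative cocycle over the base map. -/
def CC : ℕ → Torus → Plane →L[ℝ] Plane
  | 0, _ => ContinuousLinearMap.id ℝ Plane
  | n + 1, q => (SS (base^[n] q)).comp (CC n q)

theorem CC_succ (n : ℕ) (q : Torus) : CC (n + 1) q = (CC n (base q)).comp (SS q) := by
  induction n with
  | zero => rfl
  | succ n ih =>
    change (SS (base^[n + 1] q)).comp (CC (n + 1) q) = _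
    rw [ih]; rfl

theorem cov_iter (i j : ℤ) (n : ℕ) (p : Torus) :
    cov ((ft i j)^[n] p) = base^[2 * n] (cov p) := by
  induction n with
  | zero => rfl
  | succ n ih =>
    have e : 2 * (n + 1) = 2 * n + 1 + 1 := by ring
    rw [e]
    simp only [Function.iterate_succ_apply']
    rw [cov_ft, ih]

theorem D_iter (i j : ℤ) (n : ℕ) (p : Torus) : D (ft i j)^[n] p = CC (2 * n) (cov p) := by
  induction n with
  | zero => exact D_id p
  | succ n ih =>
    have e : 2 * (n + 1) = 2 * n + 1 + 1 := by ring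
    rw [D_iterate_succ (good_ft i j).diffLift, ih, D_ft, cov_iter, e]
    simp only [CC, Function.iterate_succ_apply']
    rfl

theorem exists_splitting : ∃ s r : Torus → ℝ, Continuous s ∧
    ∀ i j, IsAnosovSplitting (ft i j) (lineS (r ∘ cov)) (lineU (s ∘ cov)) := by
  obtain ⟨s, hs, hs0, hs1, hsf⟩ := exists_slope base.symm base.symm.continuous (uu ∘ base.symm)
    (ww ∘ base.symm) (continuous_uu.comp base.symm.continuous)
    (continuous_ww.comp base.symm.continuous) (fun p => one_le_uu _) (fun p => one_le_ww _)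
  have hsf' : ∀ p, s (base p) = slopeMap (uu p) (ww p) (s p) := fun p => by
    rw [hsf]; simp
  obtain ⟨r, hr, hr0, hr1, hrf⟩ := exists_slope base base.continuous ww uu continuous_ww
    continuous_uu one_le_ww one_le_uu
  have hU : ∀ q, ∃ c : ℝ, 2 ≤ c ∧ SS q (eU (s q)) = c • eU (s (base q)) := fun q =>
    ⟨1 + ww q * (uu q + s q), by nlinarith [one_le_uu q, one_le_ww q, hs0 q],
      by rw [SS, hsf', shear_eU (one_le_uu q) (one_le_ww q) (hs0 q)]⟩
  have hS : ∀ q, ∃ c : ℝ, 0 < c ∧ c ≤ 1 / 2 ∧ SS q (eS (r q)) = c • eS (r (base q)) := by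
    intro q
    have hb : 2 ≤ 1 + uu q * (ww q + r (base q)) := by
      nlinarith [one_le_uu q, one_le_ww q, hr0 (base q)]
    refine ⟨(1 + uu q * (ww q + r (base q)))⁻¹, inv_pos.2 (by linarith), ?_, ?_⟩
    · rw [one_div]; exact inv_anti₀ (by norm_num) hb
    · rw [SS, hrf q, shear_eS (one_le_uu q) (one_le_ww q) (hr0 _)]
  refine ⟨s, r, hs, fun i j => isAnosovSplitting_of_frames (good_ft i j).diffLift
    (hs.comp continuous_cov) (fun p => hs0 _) (fun p => hs1 _) (hr.comp continuous_cov)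
    (fun p => hr0 _) (fun p => hr1 _) (fun p => ?_) (fun p => ?_)⟩
  · obtain ⟨c, hc, e⟩ := hU (cov p)
    obtain ⟨d, hd, e'⟩ := hU (base (cov p))
    refine ⟨c * d, by nlinarith, ?_⟩
    simp only [Function.comp_apply]
    rw [D_ft, ContinuousLinearMap.comp_apply, e, map_smul, e', smul_smul, cov_ft]
  · obtain ⟨c, hc0, hc, e⟩ := hS (cov p)
    obtain ⟨d, hd0, hd, e'⟩ := hS (base (cov p))
    refine ⟨c * d, mul_pos hc0 hd0, by nlinarith, ?_⟩
    simp only [Function.comp_apply]
    rw [D_ft, ContinuousLinearMap.comp_apply, e, map_smul, e', smul_smul, cov_ft]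

theorem pressure_cov (i j : ℤ) {φ : Torus → ℝ} (hφ : Measurable φ) :
    pressure (ft i j) (φ ∘ cov) = pressure (base ∘ base) φ := by
  refine pressure_cover (Γ := Bool × Bool × Bool)
    (σ := fun p => (branch p.1, branch (2 • p.2), branch p.2))
    (s := fun p γ => (sec p.1 γ.1, sec (sec p.2 γ.2.1) γ.2.2)) continuous_cov.measurable
    ?_ ?_ ?_ ?_ ?_ (ft i j).continuous.measurable (ft i j).injective
    (base.continuous.comp base.continuous).measurable (cov_ft i j) hφ
  · intro a
    have : (fun p : Torus => (branch p.1, branch (2 • p.2), branch p.2)) ⁻¹' {a} =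
        Prod.fst ⁻¹' (branch ⁻¹' {a.1}) ∩ ((fun p : Torus => 2 • p.2) ⁻¹' (branch ⁻¹' {a.2.1}) ∩
          Prod.snd ⁻¹' (branch ⁻¹' {a.2.2})) := by
      ext p; simp [Prod.ext_iff]
    rw [this]
    exact (measurable_fst (measurableSet_branch _)).inter
      (((continuous_snd.nsmul 2).measurable (measurableSet_branch _)).inter
        (measurable_snd (measurableSet_branch _)))
  · intro γ
    exact ((measurable_sec γ.1).comp measurable_fst).prodMk
      ((measurable_sec γ.2.2).comp ((measurable_sec γ.2.1).comp measurable_snd))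
  · intro p; simp only [cov, sec_branch]
  · intro p γ; simp only [cov, two_sec]
  · intro p γ; simp only [branch_sec, two_sec]

theorem pressure_ft {s : Torus → ℝ} (hs : Continuous s) (t : ℝ) (i j k l : ℤ) :
    pressure (ft i j) (geomPotential (ft i j) (lineU (s ∘ cov)) t) =
      pressure (ft k l) (geomPotential (ft k l) (lineU (s ∘ cov)) t) := by
  let φ : Torus → ℝ := fun q => -t * Real.log (‖SS (base q) (SS q (eU (s q)))‖ / ‖eU (s q)‖)
  have hφ : Measurable φ := by
    refine measurable_const.mul (Real.measurable_log.comp ?_)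
    refine Measurable.div (Continuous.measurable ?_) (continuous_eU.comp hs).norm.measurable
    have h1 := continuous_uu
    have h2 := continuous_ww
    have h3 := continuous_uu.comp base.continuous
    have h4 := continuous_ww.comp base.continuous
    simp only [SS, shearCLM_apply, eU]
    simp only [Function.comp_def] at h3 h4
    simp
    fun_prop
  have e : ∀ i j, geomPotential (ft i j) (lineU (s ∘ cov)) t = φ ∘ cov := by
    intro i j
    funext p
    unfold geomPotential lineU
    rw [norm_comp_subtypeL_span _ (eU_ne_zero _), D_ft]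
    rfl
  rw [e, e, pressure_cov i j hφ, pressure_cov k l hφ]

theorem homotopic_ft (i j k l : ℤ) :
    ContinuousMap.Homotopic (ft i j : C(Torus, Torus)) (ft k l : C(Torus, Torus)) := by
  have hp : Continuous proj := by
    have := continuous_coe_circle
    unfold proj
    fun_prop
  have hf := f0.continuous
  refine ⟨⟨⟨fun q => f0 q.2 + proj ((1 - (q.1 : ℝ)) • gam i j + (q.1 : ℝ) • gam k l), ?_⟩,
    fun p => ?_, fun p => ?_⟩⟩
  · fun_prop
  · simp [ft_apply, Tr]
  · simp [ft_apply, Tr]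

end Pool.Agent.Lib.MP_480559_an
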