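import Pool.Agent.Lib.MP_480559_an.IsoB

/-!
The two lifts have the same periodic data and are not conjugate.
-/

open MeasureTheory Filter Topology Real

noncomputable section

namespace Pool.Agent.Lib.MP_480559_an

theorem Hh_injective : Function.Injective Hh := by
  intro x y h
  have h0 := congrArg (fun v : Plane => v 0) h
  have h1 := congrArg (fun v : Plane => v 1) h
  simp only [Hh, PiLp.toLp_apply, Matrix.cons_val_zero, Matrix.cons_val_one] at h0 h1
  rw [h1] at h0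
  have e0 : x 0 = y 0 := add_right_cancel h0
  rw [e0] at h1
  ext i
  fin_cases i
  · exact e0
  · exact add_right_cancel h1

theorem rep_zero_mem (p : Torus) : -1 / 2 ≤ rep p 0 ∧ rep p 0 < 1 / 2 := by
  have := (AddCircle.equivIco (1 : ℝ) (-1 / 2) p.1).2
  refine ⟨this.1, ?_⟩
  have h := this.2
  change ((AddCircle.equivIco (1 : ℝ) (-1 / 2) p.1 : ℝ)) < 1 / 2
  linarith

theorem fix_step (i j : ℤ) (k : ℕ) (p : Torus) (hp : (ft i j)^[2 * k + 1] p = p) :
    ∃ ε : ℤ, (ε = 0 ∨ ε = 1) ∧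
      f0^[2 * k + 1] (proj (Hh (rep p)) + Tr 0 ε) + Tr (7 * i + 2 * j) (3 * i + j) =
        proj (Hh (rep p)) + Tr 0 ε := by
  rw [ft_odd, ← proj_rep p, f0_iter_lift, Tr, ← proj_add, proj_eq_iff] at hp
  obtain ⟨a, b, h⟩ := hp
  have h1 := congrArg (fun v => proj (Hh v)) h
  simp only [Hh_add, proj_add] at h1
  have hc : (Hh ∘ Hh)^[2 * k + 1] (Hh (rep p)) = Hh ((Hh ∘ Hh)^[2 * k + 1] (rep p)) :=
    (Function.Commute.iterate_left (f := Hh ∘ Hh) (g := Hh) (fun _ => rfl) _).eq _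
  refine ⟨a % 2, by omega, ?_⟩
  rw [f0_odd_add, f0_iter_lift, hc, add_right_comm, Tr, h1, add_assoc]
  congr 1
  rw [← Tr, ← Tr_add]
  exact Tr_congr (by omega) (by omega)

theorem step_inj (i j : ℤ) (k : ℕ) (p p' : Torus) (hp : (ft i j)^[2 * k + 1] p = p)
    (hp' : (ft i j)^[2 * k + 1] p' = p') (ε ε' : ℤ) (hε : ε = 0 ∨ ε = 1) (hε' : ε' = 0 ∨ ε' = 1)
    (h : proj (Hh (rep p)) + Tr 0 ε = proj (Hh (rep p')) + Tr 0 ε') : p = p' := by
  rw [Tr, Tr, ← proj_add, ← proj_add, proj_eq_iff] at h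
  obtain ⟨c, d, h⟩ := h
  obtain ⟨m, hm⟩ : ∃ m : ℤ, m = 4 * d + ε' - ε := ⟨_, rfl⟩
  have h1 : rep p = rep p' + gam (2 * c - 2 * m) (-6 * c + 7 * m) := by
    apply Hh_injective
    rw [Hh_add, ← add_left_inj (gam 0 ε), h, add_assoc, add_assoc, ← gam_add, ← gam_add]
    congr 2 <;> omega
  have h2 : rep p 0 = rep p' 0 + ((c - m : ℤ) : ℝ) := by
    rw [h1]; simp [gam]; ring
  have h3 : c - m = 0 := by
    have a1 := rep_zero_mem p
    have a2 := rep_zero_mem p'
    have b1 : ((c - m : ℤ) : ℝ) < 1 := by linarith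
    have b2 : (-1 : ℝ) < ((c - m : ℤ) : ℝ) := by linarith
    have c1 : c - m < 1 := by exact_mod_cast b1
    have c2 : -1 < c - m := by exact_mod_cast b2
    omega
  have h4 : p = p' + Tr (2 * c - 2 * m) (-6 * c + 7 * m) := by
    rw [← proj_rep p, h1, proj_add, proj_rep]; rfl
  rw [ft_odd] at hp hp'
  rw [h4, f0_odd_add, add_right_comm, hp', add_right_inj] at hp
  have h5 := Tr_add (2 * c - 2 * m) (-6 * c + 7 * m) (2 * c - 2 * m) (-6 * c + 7 * m)
  nth_rewrite 2 [← hp] at h5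
  rw [← Tr_add, add_neg_cancel, add_neg_cancel,
    (Tr_eq_zero_iff 0 0).2 ⟨dvd_zero _, dvd_zero _⟩, Tr_eq_zero_iff] at h5
  rw [h4, (Tr_eq_zero_iff _ _).2 ⟨by omega, by omega⟩, add_zero]

theorem exists_inj (i j i' j' : ℤ) (h : Tr (7 * i + 2 * j) (3 * i + j) = Tr i' j') (k : ℕ) :
    ∃ F : {p // (ft i j)^[2 * k + 1] p = p} → {p // (ft i' j')^[2 * k + 1] p = p},
      Function.Injective F ∧ ∀ p, cov (F p) = base (cov p) := by
  choose ε hε hF using fix_step i j k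
  refine ⟨fun p => ⟨proj (Hh (rep p.1)) + Tr 0 (ε p.1 p.2), by rw [ft_odd, ← h, hF]⟩, ?_, ?_⟩
  · intro p p' e
    exact Subtype.ext (step_inj i j k _ _ p.2 p'.2 _ _ (hε _ _) (hε _ _) (congrArg Subtype.val e))
  · intro p
    simp only
    rw [cov_add_Tr, cov_Hh, proj_rep]

theorem CC_conj (n : ℕ) (q : Torus) (hq : base^[n] q = q) :
    ∃ A : Plane ≃L[ℝ] Plane, ∀ v, A (CC n q v) = CC n (base q) (A v) := by
  have hinj : Function.Injective (SS q : Plane →ₗ[ℝ] Plane) := by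
    intro v w h
    have h0 := congrArg (fun v : Plane => v 0) h
    have h1 := congrArg (fun v : Plane => v 1) h
    simp only [SS, ContinuousLinearMap.coe_coe, shearCLM_apply, PiLp.toLp_apply,
      Matrix.cons_val_zero, Matrix.cons_val_one] at h0 h1
    rw [h1] at h0
    have e0 : v 0 = w 0 := add_right_cancel h0
    rw [e0] at h1
    ext i
    fin_cases i
    · exact e0
    · exact add_right_cancel h1
  refine ⟨(LinearEquiv.ofInjectiveEndo _ hinj).toContinuousLinearEquiv, fun v => ?_⟩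
  change SS q (CC n q v) = CC n (base q) (SS q v)
  have e : (SS (base^[n] q)).comp (CC n q) = (CC n (base q)).comp (SS q) := CC_succ n q
  rw [hq] at e
  exact congrArg (fun T : Plane →L[ℝ] Plane => T v) e

theorem periodic_data (n : ℕ) :
    ∃ e : {p // (ft 1 0)^[n] p = p} ≃ {p // (ft 7 3)^[n] p = p},
      ∀ p, ∃ A : Plane ≃L[ℝ] Plane, ∀ v,
        A (D (ft 1 0)^[n] p.1 v) = D (ft 7 3)^[n] (e p).1 (A v) := by
  rcases Nat.even_or_odd' n with ⟨k, rfl | rfl⟩
  · refine ⟨Equiv.subtypeEquivRight fun p => by rw [ft_even, ft_even], fun p =>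
      ⟨ContinuousLinearEquiv.refl ℝ Plane, fun v => ?_⟩⟩
    rw [D_iter, D_iter]
    rfl
  · obtain ⟨F, hF, hF'⟩ := exists_inj 1 0 7 3 (by norm_num) k
    obtain ⟨G, hG, hG'⟩ := exists_inj 7 3 1 0 (Tr_congr (by norm_num) (by norm_num)) k
    obtain ⟨e, he, he'⟩ := Function.Embedding.schroeder_bernstein_of_rel hF hG
      (fun p p' => ∃ A : Plane ≃L[ℝ] Plane, ∀ v,
        A (D (ft 1 0)^[2 * k + 1] p.1 v) = D (ft 7 3)^[2 * k + 1] p'.1 (A v))
      (fun p => by
        rw [D_iter, D_iter, hF']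
        exact CC_conj _ _ (by rw [← cov_iter 1 0, p.2]))
      (fun p => by
        rw [D_iter, D_iter, hG']
        obtain ⟨A, hA⟩ := CC_conj (2 * (2 * k + 1)) (cov p.1) (by rw [← cov_iter 7 3, p.2])
        refine ⟨A.symm, fun v => A.injective ?_⟩
        rw [hA, A.apply_symm_apply, A.apply_symm_apply])
    exact ⟨Equiv.ofBijective e he, he'⟩

/-- The trace. -/
def tr (M : Plane →L[ℝ] Plane) : ℝ := M !₂[1, 0] 0 + M !₂[0, 1] 1

theorem apply_decomp (M : Plane →L[ℝ] Plane) (v : Plane) :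
    M v = v 0 • M !₂[1, 0] + v 1 • M !₂[0, 1] := by
  rw [← plane_decomp]
  congr 1
  ext i
  fin_cases i <;> simp

theorem tr_comm (M N : Plane →L[ℝ] Plane) : tr (M.comp N) = tr (N.comp M) := by
  simp only [tr, ContinuousLinearMap.comp_apply]
  rw [apply_decomp M (N _), apply_decomp M (N !₂[0, 1]), apply_decomp N (M _),
    apply_decomp N (M !₂[0, 1])]
  simp
  ring

theorem tr_conj {M N A A' : Plane →L[ℝ] Plane} (h1 : A.comp A' = ContinuousLinearMap.id ℝ Plane)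
    (h2 : A'.comp A = ContinuousLinearMap.id ℝ Plane) (h : M.comp A = A.comp N) :
    tr M = tr N := by
  have e : M = (A.comp N).comp A' := by
    rw [← h, ContinuousLinearMap.comp_assoc, h1, ContinuousLinearMap.comp_id]
  rw [e, tr_comm, ← ContinuousLinearMap.comp_assoc, h2, ContinuousLinearMap.id_comp]

theorem slope_le (x : UnitAddCircle) : slope 1 x ≤ 3 := by
  induction x using QuotientAddGroup.induction_on with
  | H t =>
    rw [slope_coe]
    linarith [cos_le_one (2 * π * ((1 : ℤ) : ℝ) * t)]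

theorem eq_zero_of_slope {x : UnitAddCircle} (h : slope 1 x = 3) : x = 0 := by
  induction x using QuotientAddGroup.induction_on with
  | H t =>
    rw [slope_coe] at h
    obtain ⟨n, hn⟩ := (cos_eq_one_iff (2 * π * ((1 : ℤ) : ℝ) * t)).1 (by linarith)
    refine (AddCircle.coe_eq_zero_iff (1 : ℝ)).2 ⟨n, ?_⟩
    have := pi_pos
    simp only [Int.cast_one, mul_one] at hn
    simp only [zsmul_eq_mul, mul_one]
    nlinarith

theorem SS_step (q : Torus) (v : Plane) {A B : ℝ} (h0 : 0 ≤ v 0) (h1 : 0 ≤ v 1) (hA : v 0 ≤ A)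
    (hB : v 1 ≤ B) : 0 ≤ SS q v 0 ∧ 0 ≤ SS q v 1 ∧ SS q v 0 ≤ 13 * A + 6 * B ∧
      SS q v 1 ≤ 2 * A + B ∧ (v 0 < A → SS q v 0 < 13 * A + 6 * B) := by
  have u1 := one_le_uu q
  have w1 := one_le_ww q
  have u2 : uu q ≤ 2 := by have := slope_le q.1; unfold uu; linarith
  have w2 : ww q ≤ 6 := by have := slope_le (base q).2; unfold ww; linarith
  have a1 : 0 ≤ uu q * v 0 := mul_nonneg (by linarith) h0
  have a2 : uu q * v 0 ≤ 2 * v 0 := mul_le_mul_of_nonneg_right u2 h0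
  have a3 : 0 ≤ ww q * (v 1 + uu q * v 0) := mul_nonneg (by linarith) (by linarith)
  have a4 : ww q * (v 1 + uu q * v 0) ≤ 6 * (v 1 + uu q * v 0) :=
    mul_le_mul_of_nonneg_right w2 (by linarith)
  simp only [SS, shearCLM_apply, PiLp.toLp_apply, Matrix.cons_val_zero, Matrix.cons_val_one]
  refine ⟨by linarith, by linarith, by linarith, by linarith, fun h => by linarith⟩

theorem base_snd (q : Torus) : (base q).2 = q.2 + (cl 3 1 1).c q.1 := rfl

theorem cl_zero (k : ℤ) (e : ℝ) (m : ℤ) : (cl k e m).c 0 = 0 := by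
  have := (cl k e m).lift 0
  simpa [cl, sg] using this

theorem eq_zero_of_tr {q : Torus} (h : tr (CC 4 q) = 37634) : q = 0 := by
  have key : ¬ SS q !₂[1, 0] 0 < 13 := by
    intro hlt
    obtain ⟨a1, a2, a3, a4, -⟩ := SS_step q !₂[1, 0] (A := 1) (B := 0) (by simp) (by simp)
      (by simp) (by simp)
    obtain ⟨b1, b2, b3, b4, b5⟩ := SS_step (base^[1] q) _ (A := 13) (B := 2) a1 a2 (by linarith)
      (by linarith)
    obtain ⟨c1, c2, c3, c4, c5⟩ := SS_step (base^[2] q) _ b1 b2 b3 b4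
    obtain ⟨-, -, -, -, d5⟩ := SS_step (base^[3] q) _ c1 c2 c3 c4
    have d6 := d5 (c5 (b5 hlt))
    obtain ⟨a1', a2', a3', a4', -⟩ := SS_step q !₂[0, 1] (A := 0) (B := 1) (by simp) (by simp)
      (by simp) (by simp)
    obtain ⟨b1', b2', b3', b4', -⟩ := SS_step (base^[1] q) _ a1' a2' a3' a4'
    obtain ⟨c1', c2', c3', c4', -⟩ := SS_step (base^[2] q) _ b1' b2' b3' b4'
    obtain ⟨-, -, -, d4', -⟩ := SS_step (base^[3] q) _ c1' c2' c3' c4'
    have e : tr (CC 4 q) =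
        SS (base^[3] q) (SS (base^[2] q) (SS (base^[1] q) (SS q !₂[1, 0]))) 0 +
        SS (base^[3] q) (SS (base^[2] q) (SS (base^[1] q) (SS q !₂[0, 1]))) 1 := rfl
    linarith
  have u1 := one_le_uu q
  have w1 := one_le_ww q
  have s1 := slope_le q.1
  have s2 := slope_le (base q).2
  have u2 : uu q ≤ 2 := by unfold uu; linarith
  have w2 : ww q ≤ 6 := by unfold ww; linarith
  simp only [SS, shearCLM_apply, PiLp.toLp_apply, Matrix.cons_val_zero, Matrix.cons_val_one,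
    not_lt] at key
  have u3 : 2 ≤ uu q := by nlinarith
  have w3 : 6 ≤ ww q := by nlinarith
  have e1 : q.1 = 0 := eq_zero_of_slope (by unfold uu at u3; linarith)
  have e2 : (base q).2 = 0 := eq_zero_of_slope (by unfold ww at w3; linarith)
  rw [base_snd, e1, cl_zero, add_zero] at e2
  exact Prod.ext e1 e2

theorem proj_zero : proj 0 = 0 := by simp [proj]

theorem base_zero : base 0 = 0 := by
  have := cov_Hh 0
  rw [Hh_zero, (cov_eq_zero_iff 0).2 ⟨0, 0, gam_zero.symm⟩] at this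
  exact this.symm

theorem SS_zero : SS 0 = shearCLM 2 6 := by
  have : slope 1 0 = 3 := by
    have := slope_coe 1 0
    simp only [mul_zero, cos_zero, AddCircle.coe_zero] at this
    rw [this]; norm_num
  rw [SS, uu, ww, base_zero]
  simp only [Prod.fst_zero, Prod.snd_zero, this]
  norm_num

theorem CC_four_zero (v : Plane) :
    CC 4 0 v = !₂[35113 * v 0 + 16296 * v 1, 5432 * v 0 + 2521 * v 1] := by
  have e : CC 4 0 v = SS (base^[3] 0) (SS (base^[2] 0) (SS (base^[1] 0) (SS 0 v))) := rfl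
  rw [e, Function.iterate_fixed base_zero, Function.iterate_fixed base_zero,
    Function.iterate_fixed base_zero, SS_zero]
  ext i
  fin_cases i <;> simp [shearCLM_apply] <;> ring

/-- The inverse of the fourth power of the derivative at the origin. -/
def Cinv : Plane →L[ℝ] Plane :=
  ((2521 : ℝ) • P 0 - (16296 : ℝ) • P 1).smulRight (!₂[1, 0] : Plane) +
    ((35113 : ℝ) • P 1 - (5432 : ℝ) • P 0).smulRight (!₂[0, 1] : Plane)

theorem CC_Cinv : (CC 4 0).comp Cinv = ContinuousLinearMap.id ℝ Plane := by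
  ext v i
  rw [ContinuousLinearMap.comp_apply, CC_four_zero]
  fin_cases i <;> simp [Cinv] <;> ring

theorem const_of_proj {φ : Plane → Plane} (hφ : Continuous φ) (h : ∀ x, proj (φ x) = 0)
    (x y : Plane) : φ x = φ y := by
  have key : ∀ u : Plane → ℝ, Continuous u → (∀ x, ∃ n : ℤ, u x = n) → ∀ x y, ¬ u x < u y := by
    intro u hu hn x y hlt
    obtain ⟨a, ha⟩ := hn x
    obtain ⟨b, hb⟩ := hn y
    have hab : a + 1 ≤ b := by
      rw [ha, hb] at hlt
      exact_mod_cast hlt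
    have hab' : (a : ℝ) + 1 ≤ b := by exact_mod_cast hab
    obtain ⟨z, hz⟩ := intermediate_value_univ x y hu
      (show (a : ℝ) + 1 / 2 ∈ Set.Icc (u x) (u y) from ⟨by linarith, by linarith⟩)
    obtain ⟨c, hc⟩ := hn z
    have : ((2 * a + 1 : ℤ) : ℝ) = ((2 * c : ℤ) : ℝ) := by push_cast; linarith
    have : 2 * a + 1 = 2 * c := by exact_mod_cast this
    omega
  ext i
  have hu : Continuous fun x => φ x i := (P i).continuous.comp hφ
  have hn : ∀ x, ∃ n : ℤ, φ x i = n := by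
    intro x
    obtain ⟨a, b, e⟩ := (proj_eq_zero_iff _).1 (h x)
    rw [e]
    fin_cases i
    · exact ⟨a, by simp [gam]⟩
    · exact ⟨b, by simp [gam]⟩
  exact le_antisymm (not_lt.1 (key _ hu hn y x)) (not_lt.1 (key _ hu hn x y))

theorem lift_linear {h : Torus → Torus} {H : Plane → Plane} (hH : Continuous H)
    (hl : ∀ x, h (proj x) = proj (H x)) : ∃ a1 a2 b1 b2 : ℤ, ∀ (x : Plane) (m n : ℤ),
      H (x + gam (2 * m) (4 * n)) = H x + gam (2 * (m * a1 + n * b1)) (4 * (m * a2 + n * b2)) := by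
  have z : ∀ (m n : ℤ) (x : Plane), proj (H (x + gam (2 * m) (4 * n)) - H x) = 0 := by
    intro m n x
    rw [proj_sub, ← hl, ← hl, (proj_eq_iff _ x).2 ⟨m, n, rfl⟩, sub_self]
  have c : ∀ (m n : ℤ) (x : Plane), H (x + gam (2 * m) (4 * n)) - H x =
      H (0 + gam (2 * m) (4 * n)) - H 0 := fun m n x =>
    const_of_proj (φ := fun x => H (x + gam (2 * m) (4 * n)) - H x) (by fun_prop) (z m n) x 0
  let A : ℤ × ℤ →+ Plane := AddMonoidHom.mk' (fun p => H (0 + gam (2 * p.1) (4 * p.2)) - H 0)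
    (fun p r => by
      rw [← c r.1 r.2 (0 + gam (2 * p.1) (4 * p.2)), add_assoc, ← gam_add, ← mul_add, ← mul_add]
      simp only [Prod.fst_add, Prod.snd_add]
      abel)
  obtain ⟨a1, a2, ha⟩ := (proj_eq_zero_iff _).1 (z 1 0 0)
  obtain ⟨b1, b2, hb⟩ := (proj_eq_zero_iff _).1 (z 0 1 0)
  refine ⟨a1, a2, b1, b2, fun x m n => ?_⟩
  have e : A (m, n) = m • A (1, 0) + n • A (0, 1) := by
    rw [← map_zsmul, ← map_zsmul, ← map_add]
    simp
  have ea : A (1, 0) = gam (2 * a1) (4 * a2) := ha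
  have eb : A (0, 1) = gam (2 * b1) (4 * b2) := hb
  rw [← sub_eq_iff_eq_add', c]
  change A (m, n) = _
  rw [e, ea, eb]
  ext i
  fin_cases i <;> simp [gam]

theorem HH_gam (i j : ℤ) : Hh (Hh (gam i j)) = gam (55 * i + 16 * j) (24 * i + 7 * j) := by
  have e : ∀ i j, Hh (gam i j) = gam (7 * i + 2 * j) (3 * i + j) := fun i j => by
    have := Hh_add 0 i j
    rwa [zero_add, Hh_zero, zero_add] at this
  rw [e, e]
  congr 1 <;> ring

theorem continuous_Hh : Continuous Hh := continuous_iff_continuousAt.2 fun x =>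
  (hasFDerivAt_Hh x).continuousAt

theorem D_inverse {h : Torus ≃ₜ Torus} (h1 : DiffLift h) (h2 : DiffLift h.symm) (p : Torus) :
    (D h p).comp (D h.symm (h p)) = ContinuousLinearMap.id ℝ Plane ∧
      (D h.symm (h p)).comp (D h p) = ContinuousLinearMap.id ℝ Plane := by
  have e : (h.symm : Torus → Torus) ∘ h = id := by funext q; simp
  have e' : (h : Torus → Torus) ∘ h.symm = id := by funext q; simp
  have a := D_comp h2 h1 p
  have b := D_comp h1 h2 (h p)
  rw [e, D_id] at a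
  rw [e', D_id, h.symm_apply_apply] at b
  exact ⟨b.symm, a.symm⟩

theorem ft_sq_zero (i j : ℤ) : (ft i j)^[2] 0 = 0 := by
  change ft i j (ft i j 0) = 0
  rw [ft_ft, ← proj_zero, f0_lift, Hh_zero, Hh_zero, f0_lift, Hh_zero, Hh_zero]

theorem cov_zero : cov 0 = 0 := by simp [cov]

theorem iso_not_conj {h : Torus ≃ₜ Torus} (h1 : DiffLift h) (h2 : DiffLift h.symm) :
    ¬ ∀ p, h (ft 1 0 p) = ft 7 3 (h p) := by
  intro hc
  have e : (h : Torus → Torus) ∘ (ft 1 0)^[2] = (ft 7 3)^[2] ∘ h := by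
    funext p
    change h (ft 1 0 (ft 1 0 p)) = ft 7 3 (ft 7 3 (h p))
    rw [hc, hc]
  have d1 := D_comp h1 ((good_ft 1 0).diffLift.iterate 2) 0
  have d2 := D_comp ((good_ft 7 3).diffLift.iterate 2) h1 0
  rw [e, d2, ft_sq_zero, D_iter, D_iter, cov_zero] at d1
  have t := tr_conj (D_inverse h1 h2 0).1 (D_inverse h1 h2 0).2 d1
  have hz : cov (h 0) = 0 := eq_zero_of_tr (t.trans (by simp [tr, CC_four_zero]; norm_num))
  obtain ⟨H, hH, hl⟩ := h1
  have hHc := hH.continuous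
  have hHh := continuous_Hh
  rw [← proj_zero, hl, proj_zero, cov_eq_zero_iff] at hz
  obtain ⟨w1, w2, hw⟩ := hz
  obtain ⟨a1, a2, b1, b2, hA⟩ := lift_linear hHc hl
  have z : ∀ x, proj (H (Hh (Hh x) + gam 1 0) - (Hh (Hh (H x)) + gam 7 3)) = 0 := by
    intro x
    have := hc (proj x)
    rw [(good_ft 1 0).lift, hl, hl, (good_ft 7 3).lift] at this
    rw [proj_sub, sub_eq_zero]
    exact this
  obtain ⟨k1, k2, hk⟩ := (proj_eq_zero_iff _).1 (z 0)
  have c : ∀ x, H (Hh (Hh x) + gam 1 0) = Hh (Hh (H x)) + gam 7 3 + gam (2 * k1) (4 * k2) := by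
    intro x
    rw [← sub_eq_iff_eq_add', ← hk]
    exact const_of_proj (φ := fun x => H (Hh (Hh x) + gam 1 0) - (Hh (Hh (H x)) + gam 7 3))
      (by fun_prop) z x 0
  have c1 := c 0
  rw [Hh_zero, Hh_zero, zero_add, hw, HH_gam, ← gam_add, ← gam_add] at c1
  have c2 := c (gam 1 0)
  have e2 : Hh (Hh (gam 1 0)) + gam 1 0 = 0 + gam (2 * 28) (4 * 6) := by
    rw [HH_gam, ← gam_add, zero_add]; norm_num
  rw [e2, hA, hw, c1, HH_gam, ← gam_add, ← gam_add, ← gam_add] at c2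
  have c3 := c (0 + gam (2 * 1) (4 * 0))
  have e3 : Hh (Hh (0 + gam (2 * 1) (4 * 0))) + gam 1 0 = gam 1 0 + gam (2 * 55) (4 * 12) := by
    rw [zero_add, HH_gam, ← gam_add, ← gam_add]; norm_num
  rw [e3, hA, hA, hw, c1, ← gam_add, ← gam_add, HH_gam, ← gam_add, ← gam_add] at c3
  obtain ⟨p1, p2⟩ := gam_inj c2
  obtain ⟨p3, p4⟩ := gam_inj c3
  omega

theorem iso_not_conj_inv {h : Torus ≃ₜ Torus} (h1 : DiffLift h) (h2 : DiffLift h.symm) :
    ¬ ∀ p, h (ft 1 0 p) = (ft 7 3).symm (h p) := by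
  intro hc0
  have hc : ∀ p, ft 7 3 (h (ft 1 0 p)) = h p := fun p => by rw [hc0]; simp
  have e : (ft 7 3)^[2] ∘ ((h : Torus → Torus) ∘ (ft 1 0)^[2]) = h := by
    funext p
    change ft 7 3 (ft 7 3 (h (ft 1 0 (ft 1 0 p)))) = h p
    rw [hc, hc]
  have d1 := D_comp h1 ((good_ft 1 0).diffLift.iterate 2) 0
  have d2 := D_comp ((good_ft 7 3).diffLift.iterate 2)
    (h1.comp ((good_ft 1 0).diffLift.iterate 2)) 0
  rw [e, d1, Function.comp_apply, ft_sq_zero, D_iter, D_iter, cov_zero] at d2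
  have d3 : (CC 4 (cov (h 0))).comp (D h 0) = (D h 0).comp Cinv := by
    nth_rewrite 2 [d2]
    rw [ContinuousLinearMap.comp_assoc, ContinuousLinearMap.comp_assoc, CC_Cinv,
      ContinuousLinearMap.comp_id]
  have t := tr_conj (D_inverse h1 h2 0).1 (D_inverse h1 h2 0).2 d3
  have hz : cov (h 0) = 0 := eq_zero_of_tr (t.trans (by simp [tr, Cinv]; norm_num))
  obtain ⟨H, hH, hl⟩ := h1
  have hHc := hH.continuous
  have hHh := continuous_Hh
  rw [← proj_zero, hl, proj_zero, cov_eq_zero_iff] at hz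
  obtain ⟨w1, w2, hw⟩ := hz
  obtain ⟨a1, a2, b1, b2, hA⟩ := lift_linear hHc hl
  have z : ∀ x, proj (Hh (Hh (H (Hh (Hh x) + gam 1 0))) + gam 7 3 - H x) = 0 := by
    intro x
    have := hc (proj x)
    rw [(good_ft 1 0).lift, hl, hl, (good_ft 7 3).lift] at this
    rw [proj_sub, sub_eq_zero]
    exact this
  obtain ⟨k1, k2, hk⟩ := (proj_eq_zero_iff _).1 (z 0)
  have c : ∀ x, Hh (Hh (H (Hh (Hh x) + gam 1 0))) + gam 7 3 = H x + gam (2 * k1) (4 * k2) := by
    intro x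
    rw [← sub_eq_iff_eq_add', ← hk]
    exact const_of_proj (φ := fun x => Hh (Hh (H (Hh (Hh x) + gam 1 0))) + gam 7 3 - H x)
      (by fun_prop) z x 0
  obtain ⟨y1, y2, q1, q2⟩ : ∃ y1 y2 : ℤ, 55 * y1 + 16 * y2 + 7 = w1 + 2 * k1 ∧
      24 * y1 + 7 * y2 + 3 = w2 + 4 * k2 :=
    ⟨7 * (w1 + 2 * k1 - 7) - 16 * (w2 + 4 * k2 - 3),
      -24 * (w1 + 2 * k1 - 7) + 55 * (w2 + 4 * k2 - 3), by ring, by ring⟩
  have c1 : H (gam 1 0) = gam y1 y2 := by
    have := c 0
    rw [Hh_zero, Hh_zero, zero_add, hw, ← gam_add, ← q1, ← q2, gam_add, add_left_inj,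
      ← HH_gam] at this
    exact Hh_injective (Hh_injective this)
  have c2 := c (gam 1 0)
  have e2 : Hh (Hh (gam 1 0)) + gam 1 0 = 0 + gam (2 * 28) (4 * 6) := by
    rw [HH_gam, ← gam_add, zero_add]; norm_num
  rw [e2, hA, hw, c1, ← gam_add, HH_gam, ← gam_add, ← gam_add] at c2
  have c3 := c (0 + gam (2 * 1) (4 * 0))
  have e3 : Hh (Hh (0 + gam (2 * 1) (4 * 0))) + gam 1 0 = gam 1 0 + gam (2 * 55) (4 * 12) := by
    rw [zero_add, HH_gam, ← gam_add, ← gam_add]; norm_num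
  rw [e3, hA, hA, hw, c1, ← gam_add, ← gam_add, HH_gam, ← gam_add, ← gam_add] at c3
  obtain ⟨p1, p2⟩ := gam_inj c2
  obtain ⟨p3, p4⟩ := gam_inj c3
  omega

end Pool.Agent.Lib.MP_480559_an
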