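import Pool.Agent.Lib.MP_480559_an.Cone
import Pool.Agent.Lib.MP_480559_an.Entropy

/-!
The double shear maps `(x, y) ↦ (x + φ(y + φ x), y + φ x)` with
`φ t = 2 t + sin (2 π m t) / (2 π m)`, and the doubling cover.
-/

open MeasureTheory Filter Topology Real

noncomputable section

namespace Pool.Agent.Lib.MP_480559_an

/-- The circle map `x ↦ 2 x + a x`. -/
def circ (a : UnitAddCircle → ℝ) (x : UnitAddCircle) : UnitAddCircle :=
  2 • x + ((a x : ℝ) : UnitAddCircle)

/-- The double shear. -/
def pairFun (a : UnitAddCircle → ℝ) (p : Torus) : Torus :=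
  (p.1 + circ a (p.2 + circ a p.1), p.2 + circ a p.1)

/-- Its inverse. -/
def pairInv (a : UnitAddCircle → ℝ) (p : Torus) : Torus :=
  (p.1 - circ a p.2, p.2 - circ a (p.1 - circ a p.2))

lemma continuous_coe_circle : Continuous (fun t : ℝ => (t : UnitAddCircle)) :=
  AddCircle.continuous_mk' 1

lemma continuous_circ {a : UnitAddCircle → ℝ} (ha : Continuous a) : Continuous (circ a) :=
  (continuous_id.nsmul 2).add (continuous_coe_circle.comp ha)

/-- The double shear as a homeomorphism. -/
def pairHomeo (a : UnitAddCircle → ℝ) (ha : Continuous a) : Torus ≃ₜ Torus where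
  toFun := pairFun a
  invFun := pairInv a
  left_inv p := by simp [pairFun, pairInv]
  right_inv p := by simp [pairFun, pairInv]
  continuous_toFun := by
    have := continuous_circ ha
    unfold pairFun
    fun_prop
  continuous_invFun := by
    have := continuous_circ ha
    unfold pairInv
    fun_prop

lemma measurePreserving_shear {c : UnitAddCircle → UnitAddCircle} (hc : Continuous c) :
    MeasurePreserving (fun p : Torus => (p.1, p.2 + c p.1)) volume volume := by
  have := MeasurePreserving.skew_product (MeasurePreserving.id (volume : Measure UnitAddCircle))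
    (g := fun x y : UnitAddCircle => y + c x) (μc := volume) (μd := volume)
    (Continuous.measurable (by unfold Function.uncurry; fun_prop))
    (ae_of_all _ fun x => map_add_right_eq_self volume (c x))
  exact this

lemma measurePreserving_pairFun {a : UnitAddCircle → ℝ} (ha : Continuous a) :
    MeasurePreserving (pairFun a) volume volume := by
  have h1 := measurePreserving_shear (continuous_circ ha)
  have hsw : MeasurePreserving (Prod.swap : Torus → Torus) volume volume :=
    Measure.measurePreserving_swap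
  have := hsw.comp (h1.comp (hsw.comp h1))
  exact this

/-- The perturbation `sin (2 π m x) / (2 π m)` on the circle. -/
def pert (m : ℤ) (x : UnitAddCircle) : ℝ := (fourier m x).im / (2 * π * m)

/-- The slope `2 + cos (2 π m x)` on the circle. -/
def slope (m : ℤ) (x : UnitAddCircle) : ℝ := 2 + (fourier m x).re

/-- The lift `2 t + sin (2 π m t) / (2 π m)`. -/
def phi (m : ℤ) (t : ℝ) : ℝ := 2 * t + sin (2 * π * m * t) / (2 * π * m)

lemma continuous_pert (m : ℤ) : Continuous (pert m) :=
  (Complex.continuous_im.comp (fourier m).continuous).div_const _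

lemma continuous_slope (m : ℤ) : Continuous (slope m) :=
  continuous_const.add (Complex.continuous_re.comp (fourier m).continuous)

lemma fourier_coe_eq (m : ℤ) (t : ℝ) : fourier m (t : UnitAddCircle) =
    Complex.exp (((2 * π * m * t : ℝ) : ℂ) * Complex.I) := by
  rw [fourier_coe_apply]
  congr 1
  push_cast
  ring

lemma pert_coe (m : ℤ) (t : ℝ) : pert m (t : UnitAddCircle) = sin (2 * π * m * t) / (2 * π * m) := by
  rw [pert, fourier_coe_eq, Complex.exp_ofReal_mul_I_im]

lemma slope_coe (m : ℤ) (t : ℝ) : slope m (t : UnitAddCircle) = 2 + cos (2 * π * m * t) := by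
  rw [slope, fourier_coe_eq, Complex.exp_ofReal_mul_I_re]

lemma one_le_slope (m : ℤ) (x : UnitAddCircle) : 1 ≤ slope m x := by
  induction x using QuotientAddGroup.induction_on with
  | H t =>
    rw [slope_coe]
    linarith [neg_one_le_cos (2 * π * m * t)]

lemma circ_coe (m : ℤ) (t : ℝ) :
    circ (pert m) (t : UnitAddCircle) = ((phi m t : ℝ) : UnitAddCircle) := by
  rw [circ, pert_coe, phi, AddCircle.coe_add, ← AddCircle.coe_nsmul]
  simp

lemma contDiff_phi (m : ℤ) (r : WithTop ℕ∞) : ContDiff ℝ r (phi m) := by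
  unfold phi
  fun_prop

lemma hasDerivAt_phi {m : ℤ} (hm : m ≠ 0) (t : ℝ) :
    HasDerivAt (phi m) (slope m (t : UnitAddCircle)) t := by
  have hm' : (m : ℝ) ≠ 0 := Int.cast_ne_zero.2 hm
  have h1 : HasDerivAt (fun t : ℝ => 2 * π * m * t) (2 * π * m) t := by
    simpa using (hasDerivAt_id t).const_mul (2 * π * m)
  have h2 := ((hasDerivAt_id t).const_mul 2).add ((h1.sin).div_const (2 * π * m))
  rw [slope_coe]
  have e1 : phi m = (fun y => 2 * id y) + fun x => sin (2 * π * m * x) / (2 * π * m) := by
    funext s; simp [phi]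
  have e2 : 2 + cos (2 * π * m * t) =
      2 * 1 + cos (2 * π * m * t) * (2 * π * m) / (2 * π * m) := by
    have := pi_ne_zero
    field_simp
  rw [e1, e2]
  exact h2

/-- The lift of the double shear. -/
def liftF (m : ℤ) (x : Plane) : Plane :=
  !₂[x 0 + phi m (x 1 + phi m (x 0)), x 1 + phi m (x 0)]

/-- The lift of the inverse of the double shear. -/
def liftG (m : ℤ) (x : Plane) : Plane :=
  !₂[x 0 - phi m (x 1), x 1 - phi m (x 0 - phi m (x 1))]

/-- The two maps. -/
def shearMap (m : ℤ) : Torus ≃ₜ Torus := pairHomeo (pert m) (continuous_pert m)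

lemma shearMap_apply (m : ℤ) (p : Torus) : shearMap m p = pairFun (pert m) p := rfl

lemma shearMap_symm_apply (m : ℤ) (p : Torus) : (shearMap m).symm p = pairInv (pert m) p := rfl

lemma shearMap_lift (m : ℤ) (x : Plane) : shearMap m (proj x) = proj (liftF m x) := by
  simp only [shearMap_apply, pairFun, proj, liftF, circ_coe, ← AddCircle.coe_add]
  simp

lemma shearMap_symm_lift (m : ℤ) (x : Plane) : (shearMap m).symm (proj x) = proj (liftG m x) := by
  simp only [shearMap_symm_apply, pairInv, proj, liftG, circ_coe, ← AddCircle.coe_sub]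
  simp

lemma contDiff_coord (r : WithTop ℕ∞) (i : Fin 2) : ContDiff ℝ r (fun x : Plane => x i) :=
  (P i).contDiff

lemma isDiffeo_shearMap (m : ℤ) (r : WithTop ℕ∞) : IsDiffeo r (shearMap m) := by
  have h0 := contDiff_coord r 0
  have h1 := contDiff_coord r 1
  have hp := contDiff_phi m r
  refine ⟨⟨liftF m, ?_, shearMap_lift m⟩, ⟨liftG m, ?_, shearMap_symm_lift m⟩⟩
  · rw [contDiff_euclidean]
    intro i
    fin_cases i
    · simpa [liftF] using h0.add (hp.comp (h1.add (hp.comp h0)))
    · simpa [liftF] using h1.add (hp.comp h0)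
  · rw [contDiff_euclidean]
    intro i
    fin_cases i
    · simpa [liftG] using h0.sub (hp.comp h1)
    · simpa [liftG] using h1.sub (hp.comp (h0.sub (hp.comp h1)))

lemma diffLift_shearMap (m : ℤ) : DiffLift (shearMap m) :=
  (isDiffeo_shearMap m 1).1.diffLift le_rfl

lemma hasFDerivAt_liftF {m : ℤ} (hm : m ≠ 0) (x : Plane) :
    HasFDerivAt (liftF m) (shearCLM (slope m ((x 0 : ℝ) : UnitAddCircle))
      (slope m ((x 1 + phi m (x 0) : ℝ) : UnitAddCircle))) x := by
  have h0 : HasFDerivAt (fun x : Plane => x 0) (P 0) x := (P 0).hasFDerivAt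
  have h1 : HasFDerivAt (fun x : Plane => x 1) (P 1) x := (P 1).hasFDerivAt
  have h2 := h1.add ((hasDerivAt_phi hm (x 0)).comp_hasFDerivAt x h0)
  have h3 := h0.add ((hasDerivAt_phi hm (x 1 + phi m (x 0))).comp_hasFDerivAt x h2)
  have h4 := (h3.smul_const (!₂[1, 0] : Plane)).add (h2.smul_const (!₂[0, 1] : Plane))
  refine HasFDerivAt.congr_of_eventuallyEq h4 (Eventually.of_forall fun y => ?_)
  ext i
  fin_cases i <;> simp [liftF]

lemma D_shearMap {m : ℤ} (hm : m ≠ 0) (p : Torus) :
    D (shearMap m) p = shearCLM (slope m p.1) (slope m (shearMap m p).2) := by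
  obtain ⟨x, rfl⟩ := proj_surjective p
  rw [D_eq (shearMap_lift m) (hasFDerivAt_liftF hm x), shearMap_lift]
  simp [proj, liftF]

/-- The doubling map of the torus. -/
def dbl (p : Torus) : Torus := (2 • p.1, 2 • p.2)

lemma fourier_one_two (x : UnitAddCircle) : fourier 1 (2 • x) = fourier 2 x := by
  rw [fourier_apply, fourier_apply, one_zsmul, ← natCast_zsmul]
  rfl

lemma slope_dbl (x : UnitAddCircle) : slope 1 (2 • x) = slope 2 x := by
  rw [slope, slope, fourier_one_two]

lemma circ_dbl (x : UnitAddCircle) : circ (pert 1) (2 • x) = 2 • circ (pert 2) x := by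
  rw [circ, circ, smul_add, ← AddCircle.coe_nsmul]
  congr 2
  rw [pert, pert, fourier_one_two]
  have := pi_ne_zero
  simp only [Int.cast_one, Int.cast_ofNat, nsmul_eq_mul, Nat.cast_ofNat]
  field_simp

lemma dbl_semiconj (p : Torus) : dbl (shearMap 2 p) = shearMap 1 (dbl p) := by
  simp only [shearMap_apply, pairFun, dbl, circ_dbl, ← smul_add]

lemma continuous_dbl : Continuous dbl := by
  unfold dbl
  fun_prop

/-- The representative in `[0, 1)`. -/
def rep0 (x : UnitAddCircle) : ℝ := (AddCircle.equivIco (1 : ℝ) 0 x : ℝ)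

lemma measurable_rep0 : Measurable rep0 :=
  measurable_subtype_coe.comp (AddCircle.measurableEquivIco (1 : ℝ) 0).measurable

lemma rep0_mem (x : UnitAddCircle) : 0 ≤ rep0 x ∧ rep0 x < 1 := by
  have := (AddCircle.equivIco (1 : ℝ) 0 x).2
  simpa [rep0] using this

lemma coe_rep0 (x : UnitAddCircle) : ((rep0 x : ℝ) : UnitAddCircle) = x := AddCircle.coe_equivIco

lemma rep0_coe {t : ℝ} (h0 : 0 ≤ t) (h1 : t < 1) : rep0 (t : UnitAddCircle) = t :=
  AddCircle.equivIco_coe_of_mem ⟨h0, by linarith⟩

/-- The two branches of the inverse of doubling on the circle. -/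
def sec (y : UnitAddCircle) (γ : Bool) : UnitAddCircle :=
  (((rep0 y + if γ then 1 else 0) / 2 : ℝ) : UnitAddCircle)

/-- The branch to which a point belongs. -/
def branch (x : UnitAddCircle) : Bool := decide (1 / 2 ≤ rep0 x)

lemma coe_add_one (t : ℝ) : ((t + 1 : ℝ) : UnitAddCircle) = t := AddCircle.coe_add_period 1 t

lemma two_sec (y : UnitAddCircle) (γ : Bool) : 2 • sec y γ = y := by
  rw [sec, ← AddCircle.coe_nsmul]
  have : (2 • ((rep0 y + if γ then 1 else 0) / 2) : ℝ) = rep0 y + if γ then 1 else 0 := by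
    simp only [nsmul_eq_mul, Nat.cast_ofNat]; ring
  rw [this]
  cases γ
  · simp [coe_rep0]
  · simp only [if_true]; rw [coe_add_one, coe_rep0]

lemma branch_sec (y : UnitAddCircle) (γ : Bool) : branch (sec y γ) = γ := by
  obtain ⟨h0, h1⟩ := rep0_mem y
  cases γ
  · rw [branch, sec, rep0_coe (by simp; linarith) (by simp; linarith)]
    simp; linarith
  · rw [branch, sec, rep0_coe (by simp; linarith) (by simp; linarith)]
    simp; linarith

lemma sec_branch (x : UnitAddCircle) : sec (2 • x) (branch x) = x := by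
  obtain ⟨h0, h1⟩ := rep0_mem x
  have h2 : 2 • x = ((2 * rep0 x : ℝ) : UnitAddCircle) := by
    conv_lhs => rw [← coe_rep0 x, ← AddCircle.coe_nsmul]
    simp
  by_cases h : 1 / 2 ≤ rep0 x
  · have hb : branch x = true := by simpa [branch] using h
    have h3 : 2 • x = ((2 * rep0 x - 1 : ℝ) : UnitAddCircle) := by
      rw [h2, ← coe_add_one (2 * rep0 x - 1)]; congr 1; ring
    rw [hb, sec, h3, rep0_coe (by linarith) (by linarith)]
    conv_rhs => rw [← coe_rep0 x]
    congr 1; simp
  · have hb : branch x = false := by simpa [branch] using h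
    rw [hb, sec, h2, rep0_coe (by linarith) (by linarith)]
    conv_rhs => rw [← coe_rep0 x]
    congr 1; simp

lemma measurable_sec (γ : Bool) : Measurable (fun y => sec y γ) :=
  continuous_coe_circle.measurable.comp ((measurable_rep0.add_const _).div_const _)

lemma measurableSet_branch (γ : Bool) : MeasurableSet (branch ⁻¹' {γ}) := by
  have h : MeasurableSet {x | 1 / 2 ≤ rep0 x} := measurableSet_le measurable_const measurable_rep0
  cases γ
  · convert h.compl using 1
    ext x; simp [branch]
  · convert h using 1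
    ext x; simp [branch]

theorem pressure_dbl {φ : Torus → ℝ} (hφ : Measurable φ) :
    pressure (shearMap 2) (φ ∘ dbl) = pressure (shearMap 1) φ := by
  refine pressure_cover (Γ := Bool × Bool) (σ := fun p => (branch p.1, branch p.2))
    (s := fun p γ => (sec p.1 γ.1, sec p.2 γ.2)) continuous_dbl.measurable ?_ ?_ ?_ ?_ ?_
    (shearMap 2).continuous.measurable (shearMap 2).injective
    (shearMap 1).continuous.measurable dbl_semiconj hφ
  · intro a
    have : (fun p : Torus => (branch p.1, branch p.2)) ⁻¹' {a} =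
        Prod.fst ⁻¹' (branch ⁻¹' {a.1}) ∩ Prod.snd ⁻¹' (branch ⁻¹' {a.2}) := by
      ext p; simp [Prod.ext_iff]
    rw [this]
    exact (measurable_fst (measurableSet_branch _)).inter (measurable_snd (measurableSet_branch _))
  · intro γ
    exact ((measurable_sec γ.1).comp measurable_fst).prodMk
      ((measurable_sec γ.2).comp measurable_snd)
  · intro p; simp only [dbl, sec_branch]
  · intro p γ; simp only [dbl, two_sec]
  · intro p γ; simp only [branch_sec]

lemma homotopic_shear :
    ContinuousMap.Homotopic (shearMap 1 : C(Torus, Torus)) (shearMap 2 : C(Torus, Torus)) := by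
  have h1 := continuous_pert 1
  have h2 := continuous_pert 2
  have hc := continuous_coe_circle
  have hcirc : Continuous (fun q : unitInterval × UnitAddCircle =>
      circ (fun x => (1 - (q.1 : ℝ)) * pert 1 x + (q.1 : ℝ) * pert 2 x) q.2) := by
    unfold circ
    fun_prop
  refine ⟨⟨⟨fun q => pairFun (fun x => (1 - (q.1 : ℝ)) * pert 1 x + (q.1 : ℝ) * pert 2 x) q.2, ?_⟩,
    fun p => ?_, fun p => ?_⟩⟩
  · unfold pairFun
    have e1 : Continuous (fun q : unitInterval × Torus => q.2.2 +
        circ (fun x => (1 - (q.1 : ℝ)) * pert 1 x + (q.1 : ℝ) * pert 2 x) q.2.1) :=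
      continuous_snd.snd.add (hcirc.comp (continuous_fst.prodMk continuous_snd.fst))
    exact (continuous_snd.fst.add (hcirc.comp (continuous_fst.prodMk e1))).prodMk e1
  · simp [shearMap_apply]
  · simp [shearMap_apply]

end Pool.Agent.Lib.MP_480559_an
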